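import Mathlib
import Pool.Agent.T2H12.KM.Defs4

/-!
# Arbitrary sets of multipliers: definitions (package DEFS5)

Copies of the lemmas `gl_hg`, `gl_inj`, `gl_low`, `gl_entropy` of `KM/Defs4.lean`, with the small primes
`P.filter fun q => q < K` replaced by an arbitrary subset `Pb` of `P`.
-/

set_option autoImplicit false

namespace Pool.Agent.T2H12.KP

open Finset
open scoped Classical
open Pool.Agent.Y359.PE Pool.Agent.T2H12.KF Pool.Agent.T2H12.KD Pool.Agent.T2H12.KG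
open Pool.Agent.T2H12.KH Pool.Agent.T2H12.KM

/-- the elements of `D` are distinct modulo `p` -/
def InjP (D : Finset ℤ) (p : ℕ) : Prop := ∀ m ∈ D, ∀ m' ∈ D, (p : ℤ) ∣ m - m' → m = m'

/-- the part prime to the good primes -/
def glb (Pb : Finset ℕ) (G : ℤ → ℤ) (x : ℤ) : ℤ := G x * gp Pb x

lemma glb_hg {P Pb : Finset ℕ} {γ G : ℤ → ℤ} {A : Finset ℤ} (h : Dec P γ G A)
    (h0 : (0 : ℤ) ∉ A) (hPb : Pb ⊆ P) {p : ℕ} (hp : p ∈ P) (hpb : p ∉ Pb) :
    HG γ (glb Pb G) p A := by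
  refine ⟨(h.hg h0 hp).1, fun x hx y hy hxy l => ?_⟩
  rw [(h.hg h0 hp).2 x hx y hy hxy l]
  have hPsp : ∀ q ∈ Pb, q.Prime := fun q hq => h.prime q (hPb hq)
  have h1 : gp Pb x = gp Pb y := (gp_eq_iff hPsp).2 fun q hq =>
    (h.hg h0 (hPb hq)).1 x hx y hy hxy
  have h2 : glb Pb G x - glb Pb G y = gp Pb x * (G x - G y) := by
    unfold glb
    rw [← h1]
    ring
  have h3 : fa (gp Pb x) p = 0 := by
    rw [fa_gp hPsp, if_neg hpb]
  rw [h2, pow_dvd_mul_iff (h.prime p hp) (gp_pos hPsp x).ne', h3, Nat.sub_zero]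

lemma glb_inj {P Pb : Finset ℕ} {γ G : ℤ → ℤ} {A : Finset ℤ} (h : Dec P γ G A)
    (h0 : (0 : ℤ) ∉ A) (hPb : Pb ⊆ P) {x y : ℤ} (hx : x ∈ A) (hy : y ∈ A) (hxy : γ x = γ y)
    (hg : glb Pb G x = glb Pb G y) : x = y := by
  have hPsp : ∀ q ∈ Pb, q.Prime := fun q hq => h.prime q (hPb hq)
  have h1 : gp Pb x = gp Pb y := (gp_eq_iff hPsp).2 fun q hq =>
    (h.hg h0 (hPb hq)).1 x hx y hy hxy
  unfold glb at hg
  rw [← h1] at hg
  rw [h.eq x hx, h.eq y hy, hxy, mul_right_cancel₀ (gp_pos hPsp x).ne' hg]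

lemma glb_low {P Pb : Finset ℕ} {γ G : ℤ → ℤ} {A : Finset ℤ} (h : Dec P γ G A)
    (h0 : (0 : ℤ) ∉ A) (hPb : Pb ⊆ P) {x y : ℤ} (hx : x ∈ A) (hy : y ∈ A)
    (hg : glb Pb G x = glb Pb G y) {p : ℕ} (hp : p ∈ Pb) : fa x p = fa y p := by
  have hPsp : ∀ q ∈ Pb, q.Prime := fun q hq => h.prime q (hPb hq)
  have h1 : ∀ z ∈ A, fa (glb Pb G z) p = fa z p := by
    intro z hz
    unfold glb
    rw [fa_mul (h.ne h0 hz).2 (gp_pos hPsp z).ne', h.cop p (hPb hp) z hz, fa_gp hPsp,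
      if_pos hp, zero_add]
  rw [← h1 x hx, ← h1 y hy, hg]

/-- the entropy of the part prime to the good primes -/
lemma glb_entropy {P Pb : Finset ℕ} {γ G : ℤ → ℤ} {A : Finset ℤ} (h : Dec P γ G A)
    (h0 : (0 : ℤ) ∉ A) (hPb : Pb ⊆ P) : Pool.Agent.Y359.PE.h A (glb Pb G) =
      Pool.Agent.Y359.PE.h A G + ce A G (gp Pb) := by
  have hPsp : ∀ q ∈ Pb, q.Prime := fun q hq => h.prime q (hPb hq)
  unfold ce
  have h1 : Pool.Agent.Y359.PE.h A (glb Pb G) =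
      Pool.Agent.Y359.PE.h A (fun x => (G x, gp Pb x)) := by
    refine h_congr fun x hx y hy => ?_
    rw [Prod.mk.injEq]
    constructor
    · intro hg
      have h2 : gp Pb x = gp Pb y := (gp_eq_iff hPsp).2 fun q hq => glb_low h h0 hPb hx hy hg hq
      refine ⟨?_, h2⟩
      unfold glb at hg
      rw [← h2] at hg
      exact mul_right_cancel₀ (gp_pos hPsp x).ne' hg
    · rintro ⟨h2, h3⟩
      unfold glb
      rw [h2, h3]
  rw [h1]
  ring

end Pool.Agent.T2H12.KP
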