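import Mathlib
import Pool.Agent.T2H12.KM.SB4a
import Pool.Agent.T2H12.KP.Defs5

/-!
# Arbitrary sets of multipliers: the exponents of all the primes (package MULT)

Generalisation of `levB_large`, `exists_mult` (`KD/Lam4.lean`) and `step04` (`KM/SB4.lean`): the
multipliers `qK K` are replaced by an arbitrary finite set `D` of nonzero integers, and the small primes
by the set `Pb` of the primes modulo which the elements of `D` are not distinct.

* `levB_largeD` : copy of `levB_large` (the abstract lemma `large_level` applies with `Q := D`,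
  `Q₀ := D.filter fun m => (p : ℤ) ∣ m`, which has at most one element).
* `hzm_single` : a single multiplier `m ≠ 0`, any primes, cost `L₀` per prime. Proof: with
  `U' = U.image fun x => m * x` one has `hzm m U V (fL L) = hz U' V (fL L)` (`fa (m * x) p = fa m p +
  fa x p`, so `fL L (m * x) = fL L (m * y) ↔ fL L x = fL L y`; `h_dilate` as in `KM/SumB4.lean`), and
  `spine_list` (`KF/Spine.lean`, with `exists_bitC`) bounds `hz U' V (fL L)`.
* `step05` : copy of `step04`. With `Lg = (P \ Pb).toList`, `Lb = Pb.toList`: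
  `ce (U ×ˢ V) z gam ≤ hzm m U V (fL Lg) + hzm m U V (fL Lb) + ce U (gp P) gam` for each `m` (chain rule,
  conditioning reduces the entropy, the exponents at `P` determine `gp P`); sum over `m ∈ D`, with
  `spine_list_m hδ D (fun _ => δ₁) Lg` for the first and `hzm_single` for the second term
  (`h U (fL Lg) ≤ log |U| ≤ |D| δ log |U|` if `|D| ≥ 1 / δ`).
-/

set_option autoImplicit false

namespace Pool.Agent.T2H12.KP

open Finset
open scoped Classical
open Pool.Agent.Y359.PE Pool.Agent.T2H12.KF Pool.Agent.T2H12.KD Pool.Agent.T2H12.KG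
open Pool.Agent.T2H12.KH Pool.Agent.T2H12.KM

lemma levB_largeD {δ C δ₁ : ℝ} (hδ : 0 < δ) (hδ1 : δ ≤ 1) (hC : 2 ≤ C) (hB : BitG δ C)
    (hδ₁ : 0 < δ₁) : ∃ K₀ : ℝ, 0 < K₀ ∧ ∀ (D : Finset ℤ) (p : ℕ), K₀ ≤ D.card → p.Prime →
      InjP D p → LevB δ D p δ₁ := by
  obtain ⟨K₀, hK₀, h⟩ := large_level hδ hδ1 hC hB hδ₁
  refine ⟨K₀, hK₀, ?_⟩
  intro D p hK hp hD l U V hU hV
  have hQ₀ : (D.filter fun m => (p : ℤ) ∣ m).card ≤ 1 := by
    rw [card_le_one]
    intro m hm m' hm'
    obtain ⟨h1, h2⟩ := mem_filter.1 hm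
    obtain ⟨h3, h4⟩ := mem_filter.1 hm'
    exact hD m h1 m' h3 (dvd_sub h2 h4)
  refine h ℤ ℤ _ U V (rs p l) (rs p l) D (D.filter fun m => (p : ℤ) ∣ m) hU hV
    (filter_subset _ _) hQ₀ ?_ ?_ hK
  · intro m hm hm0 x _
    exact good_mult hp (fun hd => hm0 (mem_filter.2 ⟨hm, hd⟩)) l x
  · intro x _ hx m hm m' hm' he
    refine hD m hm m' hm' ?_
    by_contra hnd
    have h1 : (m - m') • rs p l x = 0 := by rw [sub_smul, he, sub_self]
    exact hx ((good_mult hp hnd l x).1 h1)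

theorem hzm_single {δ : ℝ} (hδ : 0 < δ) (hδ1 : δ ≤ 1) : ∃ L₀ : ℝ, 0 ≤ L₀ ∧
    ∀ (m : ℤ) (L : List ℕ) (U V : Finset ℤ), m ≠ 0 → (∀ p ∈ L, p.Prime) → (0 : ℤ) ∉ U →
      U.Nonempty → V.Nonempty →
      hzm m U V (fL L) ≤ 4 * δ * (Real.log U.card + Real.log V.card) + L₀ * L.length := by
  obtain ⟨C, hC, hB⟩ := exists_bitC hδ hδ1
  have hl2 : 0 < Real.log 2 := Real.log_pos (by norm_num)
  have hlC : 0 ≤ Real.log (C / δ) := Real.log_nonneg (by
    rw [le_div_iff₀ hδ]
    linarith)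
  refine ⟨2 * Real.log 2 + 1 + Real.log (C / δ), by positivity, ?_⟩
  intro m L U V hm hL h0 hU hV
  have hne : ∀ x ∈ U, x ≠ 0 := fun x hx h => h0 (h ▸ hx)
  have hinj : Function.Injective fun x : ℤ => m * x := fun x y hxy => mul_left_cancel₀ hm hxy
  have hUc : (U.image fun x => m * x).card = U.card := card_image_of_injective _ hinj
  have h0' : (0 : ℤ) ∉ U.image fun x => m * x := by
    intro h
    obtain ⟨x, hx, h1⟩ := mem_image.1 h
    exact mul_ne_zero hm (hne x hx) h1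
  have h1 := spine_list hδ hδ1 hC hB L (U.image fun x => m * x) V hL h0' (hU.image _) hV
  have h2 : hzm m U V (fL L) = hz (U.image fun x => m * x) V (fL L) := by
    unfold hz hzm ce
    rw [h_dilate hm, h_dilate hm]
    congr 1
    refine h_congr fun x hx y hy => ?_
    have hxU := hne _ (mem_product.1 hx).1
    have hyU := hne _ (mem_product.1 hy).1
    rw [Prod.mk.injEq, Prod.mk.injEq, fL_eq_iff, fL_eq_iff]
    refine and_congr_right fun _ => forall_congr' fun p => forall_congr' fun _ => ?_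
    rw [fa_mul hm hxU, fa_mul hm hyU]
    omega
  have h3 := h_le_log_card (U.image fun x => m * x) (fL L)
  rw [hUc] at h3
  rw [h2]
  have h4 : 4 * δ * (h (U.image fun x => m * x) (fL L) + Real.log V.card) ≤
      4 * δ * (Real.log U.card + Real.log V.card) :=
    mul_le_mul_of_nonneg_left (by linarith) (by positivity)
  linarith

/-- **The exponents of all the primes, with a random multiplier from `D`.** -/
theorem step05 {δ δ₁ : ℝ} (hδ : 0 < δ) (hδ1 : δ ≤ 1) (hδ₁ : 0 < δ₁) :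
    ∃ (K₀ : ℕ) (L₀ : ℝ), 1 ≤ K₀ ∧ 0 ≤ L₀ ∧ ∀ D : Finset ℤ, K₀ ≤ D.card → (0 : ℤ) ∉ D →
      ∀ (P Pb : Finset ℕ) (gam : ℤ → ℤ) (U V : Finset ℤ), Pb ⊆ P → (∀ q ∈ P, q.Prime) →
        (∀ p ∈ P, p ∉ Pb → InjP D p) → (0 : ℤ) ∉ U → U.Nonempty → V.Nonempty →
      ∑ m ∈ D, ce (U ×ˢ V) (fun s => m * s.1 + s.2) (fun s => gam s.1) ≤
        D.card * (10 * δ * (Real.log U.card + Real.log V.card) + δ₁ * P.card + L₀ * Pb.card +
          ce U (gp P) gam) := by
  obtain ⟨C, hC, hB⟩ := exists_bitG hδ hδ1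
  obtain ⟨K₀, hK₀, hlarge⟩ := levB_largeD hδ hδ1 hC hB hδ₁
  obtain ⟨L₀, hL₀, hsingle⟩ := hzm_single hδ hδ1
  obtain ⟨K, hK⟩ := exists_nat_ge (max K₀ (1 / δ))
  refine ⟨max K 1, L₀, le_max_right _ _, hL₀, ?_⟩
  intro D hD hD0 P Pb gam U V hPb hPp hInj h0 hU hV
  have hKD : (K : ℝ) ≤ D.card := by exact_mod_cast (le_max_left K 1).trans hD
  have hK1 : K₀ ≤ D.card := ((le_max_left _ _).trans hK).trans hKD
  have hK2 : 1 / δ ≤ D.card := ((le_max_right _ _).trans hK).trans hKD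
  have hDp : (0 : ℝ) < D.card := hK₀.trans_le hK1
  set Lg := (P \ Pb).toList with hLg
  set Lb := Pb.toList with hLb
  have h1 := spine_list_m hδ D (fun _ => δ₁) Lg U V (by
    intro p hp
    rw [hLg, Finset.mem_toList, mem_sdiff] at hp
    exact ⟨hPp p hp.1, hδ₁.le, hlarge D p hK1 (hPp p hp.1) (hInj p hp.1 hp.2)⟩) h0 hU hV
  have h2 : cs (fun _ => δ₁) Lg ≤ δ₁ * P.card := by
    have e1 : cs (fun _ => δ₁) Lg = δ₁ * Lg.length := by
      unfold cs
      rw [List.map_const', List.sum_replicate, nsmul_eq_mul, mul_comm]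
    rw [e1, hLg, Finset.length_toList]
    have e2 : (((P \ Pb).card : ℕ) : ℝ) ≤ P.card := by
      exact_mod_cast card_le_card sdiff_subset
    exact mul_le_mul_of_nonneg_left e2 hδ₁.le
  have h3 : ∀ m ∈ D, ce (U ×ˢ V) (fun s => m * s.1 + s.2) (fun s => gam s.1) ≤
      hzm m U V (fL Lg) + (4 * δ * (Real.log U.card + Real.log V.card) + L₀ * Pb.card) +
        ce U (gp P) gam := by
    intro m hm
    have hm0 : m ≠ 0 := fun h => hD0 (h ▸ hm)
    have e0 := hsingle m Lb U V hm0 (by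
      intro p hp
      rw [hLb, Finset.mem_toList] at hp
      exact hPp p (hPb hp)) h0 hU hV
    rw [hLb, Finset.length_toList, ← hLb] at e0
    have e1 : ce (U ×ˢ V) (fun s => m * s.1 + s.2) (fun s => gam s.1) ≤
        ce (U ×ˢ V) (fun s => m * s.1 + s.2) (fun s => (fL Lg s.1, (fL Lb s.1, gam s.1))) :=
      ce_mono _ _ _ _ fun x _ y _ _ hxy => (Prod.mk.inj (Prod.mk.inj hxy).2).2
    rw [ce_chain, ce_chain] at e1
    have e2 : ce (U ×ˢ V) (fun s => ((m * s.1 + s.2, fL Lg s.1), fL Lb s.1))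
        (fun s => gam s.1) ≤ ce (U ×ˢ V) (fun s => gp P s.1) (fun s => gam s.1) := by
      refine ce_anti _ _ _ _ fun x _ y _ hxy => ?_
      have hb : fL Lb x.1 = fL Lb y.1 := (Prod.mk.inj hxy).2
      have hg : fL Lg x.1 = fL Lg y.1 := (Prod.mk.inj (Prod.mk.inj hxy).1).2
      rw [fL_eq_iff] at hb hg
      refine (gp_eq_iff hPp).2 fun p hp => ?_
      by_cases hpb : p ∈ Pb
      · exact hb p (Finset.mem_toList.2 hpb)
      · exact hg p (Finset.mem_toList.2 (mem_sdiff.2 ⟨hp, hpb⟩))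
    have e3 : ce (U ×ˢ V) (fun s => (m * s.1 + s.2, fL Lg s.1)) (fun s => fL Lb s.1) ≤
        hzm m U V (fL Lb) := by
      unfold hzm
      exact ce_anti _ _ _ _ fun x _ y _ hxy => (Prod.mk.inj hxy).1
    have e4 : ce (U ×ˢ V) (fun s => gp P s.1) (fun s => gam s.1) = ce U (gp P) gam := by
      unfold ce
      rw [h_fst U V hU hV (gp P)]
      have e3 := h_fst U V hU hV (fun x => (gp P x, gam x))
      rw [e3]
    have e5 : ce (U ×ˢ V) (fun s => m * s.1 + s.2) (fun s => fL Lg s.1) =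
        hzm m U V (fL Lg) := rfl
    linarith
  have h4 := sum_le_sum h3
  rw [sum_add_distrib, sum_add_distrib, sum_const, sum_const, nsmul_eq_mul, nsmul_eq_mul] at h4
  refine h4.trans ?_
  have h5 := h_le_log_card U (fL Lg)
  have h6 := log_card_nonneg V
  have h7 := h_nonneg U (fL Lg)
  have h7' := log_card_nonneg U
  have h8 : 1 ≤ D.card * δ := by
    rw [div_le_iff₀ hδ] at hK2
    exact hK2
  have h9 : h U (fL Lg) ≤ D.card * (δ * Real.log U.card) := by
    have h9 : (1 : ℝ) * h U (fL Lg) ≤ D.card * δ * Real.log U.card :=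
      mul_le_mul h8 h5 h7 (by positivity)
    linarith
  have h10 : (D.card : ℝ) * (4 * δ * (h U (fL Lg) + Real.log V.card)) ≤
      D.card * (4 * δ * (Real.log U.card + Real.log V.card)) :=
    mul_le_mul_of_nonneg_left (mul_le_mul_of_nonneg_left (by linarith) (by positivity)) hDp.le
  have h11 : 0 ≤ (D.card : ℝ) * (δ * Real.log V.card) := by positivity
  have h11' : 0 ≤ (D.card : ℝ) * (δ * Real.log U.card) := by positivity
  have h12 := mul_le_mul_of_nonneg_left h2 hDp.le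
  linarith

end Pool.Agent.T2H12.KP
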