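import Mathlib
import Pool.Agent.T2H12.KP.Defs5

/-!
# Arbitrary sets of multipliers: the first rule (package RULE5)

Copy of `rule1Z` (`KH/Rule1.lean`), with the multipliers `qK K` replaced by `D` (and `qK_inj` by `InjP`).
-/

set_option autoImplicit false

namespace Pool.Agent.T2H12.KP

open Finset
open scoped Classical
open Pool.Agent.Y359.PE Pool.Agent.T2H12.KF Pool.Agent.T2H12.KD Pool.Agent.T2H12.KG
open Pool.Agent.T2H12.KH Pool.Agent.T2H12.KM

/-- **The first rule** for residues of integers. -/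
theorem rule1D {δ c : ℝ} (hδ : 0 < δ) (hc : 0 < c) : ∃ d : ℝ, 0 < d ∧ d < 1 ∧
    ∀ t : ℝ, 0 ≤ t → ∃ K₀ : ℝ, 0 < K₀ ∧ ∀ (D : Finset ℤ) (p : ℕ), K₀ ≤ D.card → p.Prime →
      InjP D p → ∀ (l : ℕ) (S T : Finset ℤ), S.Nonempty → T.Nonempty →
      (lgt t T p l : ℝ) ≤ d * T.card →
      ∑ m ∈ D, ce (S ×ˢ T) (fun s => m * s.1 + s.2) (fun s => rp p l s.1) ≤
        D.card * (δ * h S (rp p l) + c) := by
  obtain ⟨d, hd0, hd1, H⟩ := rule1 hδ hc
  refine ⟨d, hd0, hd1, fun t ht => ?_⟩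
  obtain ⟨K₀, hK₀, H⟩ := H t ht
  refine ⟨K₀, hK₀, ?_⟩
  intro D p hK hp hKp l S T hS hT hl
  have hiff : ∀ x y : ℤ, rp p l x = rp p l y ↔ ((x : ZMod (p ^ l)) = (y : ZMod (p ^ l))) := by
    intro x y
    rw [rp_eq_iff, Dt.cast_eq_iff]
    push_cast
    rfl
  have hgood : ∀ m : ℤ, ¬ (p : ℤ) ∣ m → ∀ x : ℤ, m • (x : ZMod (p ^ l)) = 0 →
      (x : ZMod (p ^ l)) = 0 := by
    intro m hm x h0
    have h1 : ((m * x : ℤ) : ZMod (p ^ l)) = ((0 : ℤ) : ZMod (p ^ l)) := by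
      rw [Int.cast_mul, Int.cast_zero, ← zsmul_eq_mul]
      exact h0
    rw [Dt.cast_eq_iff, sub_zero] at h1
    push_cast at h1
    have hcop : IsCoprime ((p : ℤ) ^ l) m := by
      refine IsCoprime.pow_left ?_
      exact (Prime.coprime_iff_not_dvd (Nat.prime_iff_prime_int.1 hp)).2 hm
    have h2 := hcop.dvd_of_dvd_mul_left h1
    have h3 : ((x : ℤ) : ZMod (p ^ l)) = ((0 : ℤ) : ZMod (p ^ l)) := by
      rw [Dt.cast_eq_iff, sub_zero]
      push_cast
      exact h2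
    rw [h3, Int.cast_zero]
  have hQ₀ : (D.filter fun m => (p : ℤ) ∣ m).card ≤ 1 := by
    rw [card_le_one]
    intro m hm m' hm'
    obtain ⟨h1, h2⟩ := mem_filter.1 hm
    obtain ⟨h3, h4⟩ := mem_filter.1 hm'
    exact hKp m h1 m' h3 (dvd_sub h2 h4)
  have h1 := H ℤ ℤ (ZMod (p ^ l)) S T (fun x => (x : ZMod (p ^ l))) (fun x => (x : ZMod (p ^ l)))
    D (D.filter fun m => (p : ℤ) ∣ m) hS hT (filter_subset _ _) hQ₀ ?_ ?_
    hK ?_
  · have h2 : h S (rp p l) = h S (fun x => (x : ZMod (p ^ l))) :=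
      h_congr fun x _ y _ => hiff x y
    rw [h2]
    refine le_trans (sum_le_sum fun m _ => ?_) h1
    have h3 : ce (S ×ˢ T) (fun s => m * s.1 + s.2) (fun s => rp p l s.1) ≤
        ce (S ×ˢ T) (fun s => m * s.1 + s.2) (fun s => (s.1 : ZMod (p ^ l))) :=
      ce_mono _ _ _ _ fun x _ y _ _ hxy => (hiff _ _).2 hxy
    refine h3.trans (ce_anti _ _ _ _ fun x _ y _ hxy => ?_)
    have hxy' : m * x.1 + x.2 = m * y.1 + y.2 := hxy
    show m • (x.1 : ZMod (p ^ l)) + (x.2 : ZMod (p ^ l)) =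
      m • (y.1 : ZMod (p ^ l)) + (y.2 : ZMod (p ^ l))
    rw [zsmul_eq_mul, zsmul_eq_mul]
    have := congrArg (fun z : ℤ => (z : ZMod (p ^ l))) hxy'
    push_cast at this
    exact this
  · intro m hm hm0 x _ y _ hxy
    have hnd : ¬ (p : ℤ) ∣ m := fun hd => hm0 (mem_filter.2 ⟨hm, hd⟩)
    have hxy' : m • (x : ZMod (p ^ l)) = m • (y : ZMod (p ^ l)) := hxy
    show (x : ZMod (p ^ l)) = (y : ZMod (p ^ l))
    have h2 := hgood m hnd (x - y) (by
      push_cast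
      rw [smul_sub, hxy', sub_self])
    push_cast at h2
    exact sub_eq_zero.1 h2
  · intro x _ y _ hxy m hm m' hm' he
    refine hKp m hm m' hm' ?_
    by_contra hnd
    have he' : m • ((x : ZMod (p ^ l)) - (y : ZMod (p ^ l))) =
      m' • ((x : ZMod (p ^ l)) - (y : ZMod (p ^ l))) := he
    have h2 := hgood (m - m') hnd (x - y) (by
      push_cast
      rw [sub_smul, he', sub_self])
    push_cast at h2
    exact hxy (sub_eq_zero.1 h2)
  · have h2 : ∀ y ∈ T, fc T (rp p l) y = fc T (fun x => (x : ZMod (p ^ l))) y := by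
      intro y hy
      unfold fc
      rw [cl_eq_of_iff (fun x _ y _ => hiff x y) hy]
    unfold lgt at hl
    refine le_trans (le_of_eq ?_) hl
    congr 2
    refine filter_congr fun y hy => ?_
    unfold Hvy
    rw [not_le, h2 y hy]

end Pool.Agent.T2H12.KP
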