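import Mathlib
import Pool.Agent.T2H12.KM.SB4a
import Pool.Agent.T2H12.KP.Defs5

/-!
# Arbitrary sets of multipliers: the exceptional pairs are rare (package SB5)

Copy of `id_low4`, `fib_low4`, `O_small4` (`KM/SB4.lean`) with `p < K` replaced by `p ∈ Pb` and `K ≤ p` by
`p ∉ Pb`. (`flat_app4` is used as it is.)
-/

set_option autoImplicit false

namespace Pool.Agent.T2H12.KP

open Finset
open scoped Classical
open Pool.Agent.Y359.PE Pool.Agent.T2H12.KF Pool.Agent.T2H12.KD Pool.Agent.T2H12.KG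
open Pool.Agent.T2H12.KH Pool.Agent.T2H12.KM

/-- the exponents of the large primes from below -/
lemma id_low5 (R Pb : Finset ℕ) (hR : ∀ q ∈ R, q.Prime) (gam gl : ℤ → ℤ)
    (O : Finset ℤ) (hinj : ∀ x ∈ O, ∀ y ∈ O, gam x = gam y → gl x = gl y → x = y)
    (hlow : ∀ x ∈ O, ∀ y ∈ O, gl x = gl y → ∀ p ∈ R, p ∈ Pb → fa x p = fa y p) (J : ℕ) (P : ℕ → ℕ)
    (hP : ∀ q ∈ R, q ∉ Pb → ∃ j < J, P j = q) :
    Real.log O.card - h O gl ≤
      ce O gl (fun x => fun j : Fin J => fa x (P j)) + ce O (gp R) gam := by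
  set v : ℤ → Fin J → ℕ := fun x => fun j : Fin J => fa x (P j) with hv
  have h1 : ce O gl (fun x => (v x, gam x)) = Real.log O.card - h O gl := by
    unfold ce
    rw [h_inj O _ (by
      intro x hx y hy hxy
      obtain ⟨h3, h4⟩ := Prod.mk.inj hxy
      obtain ⟨_, h5⟩ := Prod.mk.inj h4
      exact hinj x hx y hy h5 h3)]
  rw [← h1, ce_chain]
  refine add_le_add le_rfl ?_
  refine ce_anti _ _ _ _ fun x hx y hy hxy => ?_
  obtain ⟨h3, h4⟩ := Prod.mk.inj hxy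
  rw [gp_eq_iff hR]
  intro p hp
  by_cases hpK : p ∉ Pb
  · obtain ⟨j, hj, rfl⟩ := hP p hp hpK
    exact congrFun h4 ⟨j, hj⟩
  · exact hlow x hx y hy h3 p hp (not_not.1 hpK)

/-- the lower bound for the entropy of the exponents -/
lemma fib_low5 (R Pb : Finset ℕ) (hR : ∀ q ∈ R, q.Prime) (gam gl : ℤ → ℤ)
    (A O : Finset ℤ) (hinj : ∀ x ∈ A, ∀ y ∈ A, gam x = gam y → gl x = gl y → x = y)
    (hlow : ∀ x ∈ A, ∀ y ∈ A, gl x = gl y → ∀ p ∈ R, p ∈ Pb → fa x p = fa y p)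
    (hOA : O ⊆ A) (hO : O.Nonempty) {τ : ℝ}
    (hf : ∀ x ∈ O, Real.exp τ ≤ fc A gl x) (J : ℕ) (P : ℕ → ℕ)
    (hP : ∀ q ∈ R, q ∉ Pb → ∃ j < J, P j = q) :
    Real.log O.card - (Real.log A.card - τ) - ce O (gp R) gam ≤
      ce O gl (fun x => fun j : Fin J => fa x (P j)) := by
  have h1 := id_low5 R Pb hR gam gl O (fun x hx y hy => hinj x (hOA hx) y (hOA hy))
    (fun x hx y hy => hlow x (hOA hx) y (hOA hy)) J P hP
  have h2 := h_le_log hO gl
  have h3 := image_card_le A O gl hf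
  have hI : (0 : ℝ) < (O.image gl).card := by exact_mod_cast card_pos.2 (hO.image _)
  have hinst : ∀ i₁ i₂ : DecidableEq ℤ, @Finset.image ℤ ℤ i₁ gl O =
      @Finset.image ℤ ℤ i₂ gl O := fun i₁ i₂ => by rw [Subsingleton.elim i₁ i₂]
  rw [hinst _ Int.instDecidableEq] at h2 h3
  have h4 := Real.log_le_log (mul_pos hI (Real.exp_pos _)) h3
  rw [Real.log_mul hI.ne' (Real.exp_pos _).ne', Real.log_exp] at h4
  linarith

/-- **The exceptional pairs are rare.** -/
theorem O_small5 {η κ δ lam a Y E : ℝ} (π : Par) (D : Finset ℤ) (hF : FlatP δ lam π.al)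
    (hal : π.al ≤ 1) (hu : 0 ≤ π.u) (hlam : Real.exp π.u * lam = 1)
    {ρ : ℝ} (hρ : 0 < ρ) (hρ2 : ρ ≤ 1 / 2) (R Pb : Finset ℕ) (hRp : ∀ q ∈ R, q.Prime)
    (gam gl : ℤ → ℤ) (P : ℕ → ℕ) (J : ℕ) (hPp : ∀ j < J, (P j).Prime) (A U V : Finset ℤ)
    (hP : ∀ j < J, HG gam gl (P j) U)
    (hinj : ∀ x ∈ A, ∀ y ∈ A, gam x = gam y → gl x = gl y → x = y)
    (hlow : ∀ x ∈ A, ∀ y ∈ A, gl x = gl y → ∀ p ∈ R, p ∈ Pb → fa x p = fa y p)
    (hPQ : ∀ q ∈ R, q ∉ Pb → ∃ j < J, P j = q) (hE : ∀ O ⊆ A, ce O (gp R) gam ≤ E) (hUA : U ⊆ A) (h0 : (0 : ℤ) ∉ A) (hU : U.Nonempty) (hV : V.Nonempty)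
    (st : ℕ → ℤ × ℤ → St) (hst0 : ∀ s, st 0 s = (cl U gam s.1, V, 0))
    (hR : ∀ j ≤ J, Rect U V (st j))
    (hO : ∀ j < J, ∀ s ∈ U ×ˢ V, OneP π D (P j) (st j s).1 (st j s).2.1 (st (j + 1)))
    (hη : 0 < η) (hκ : 0 < κ) (hδ : 0 ≤ δ) (ha : a = Real.log A.card)
    (hUc : κ / 2 * A.card ≤ U.card) (hfib : ∀ x ∈ U, Real.exp (κ / 2 * a) ≤ fc A gl x)
    (hY : 0 < Y)
    (hcount : ∑ j ∈ range J, ∑ s ∈ U ×ˢ V, ((st (j + 1) s).2.2 : ℝ) ≤ (U ×ˢ V).card * Y)
    (hR0 : 0 ≤ κ / 2 * a + Real.log (η * κ / 4) - E)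
    (hnum : δ * (a + J) + 2 * ρ * J + Real.log (1 / ρ) * (2 / η * Y) <
      η / 2 * (κ / 2 * a + Real.log (η * κ / 4) - E)) :
    (((U ×ˢ V).filter fun s => Real.exp π.t < ((st J s).2.1.card : ℝ)).card : ℝ) ≤
      η * (U ×ˢ V).card := by
  by_contra hcon
  rw [not_le] at hcon
  have hUc0 : (0 : ℝ) < U.card := by exact_mod_cast card_pos.2 hU
  have hVc0 : (0 : ℝ) < V.card := by exact_mod_cast card_pos.2 hV
  have hAc0 : (0 : ℝ) < A.card := by exact_mod_cast card_pos.2 (hU.mono hUA)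
  have hlρ : 0 ≤ Real.log (1 / ρ) := Real.log_nonneg (by
    rw [le_div_iff₀ hρ]
    linarith)
  set O : ℤ → Finset ℤ := fun b => U.filter fun x => Real.exp π.t < ((st J (x, b)).2.1.card : ℝ)
    with hOd
  set g : ℤ → ℝ := fun b => ∑ x ∈ U, ∑ j ∈ range J, ((st (j + 1) (x, b)).2.2 : ℝ) with hg
  have hg0 : ∀ b, 0 ≤ g b := fun b => sum_nonneg fun _ _ => sum_nonneg fun _ _ => Nat.cast_nonneg _
  have hXc : ((U ×ˢ V).card : ℝ) = U.card * V.card := by
    rw [card_product]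
    push_cast
    rfl
  have e1 : (((U ×ˢ V).filter fun s => Real.exp π.t < ((st J s).2.1.card : ℝ)).card : ℝ) =
      ∑ b ∈ V, ((O b).card : ℝ) := by
    rw [card_filter]
    push_cast
    rw [sum_product_right]
    refine sum_congr rfl fun b _ => ?_
    rw [hOd]
    simp only [card_filter]
    push_cast
    rfl
  have e2 : ∑ j ∈ range J, ∑ s ∈ U ×ˢ V, ((st (j + 1) s).2.2 : ℝ) = ∑ b ∈ V, g b := by
    rw [sum_comm, sum_product_right]
  rw [e1, hXc] at hcon
  rw [e2, hXc] at hcount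
  obtain ⟨b, hb, hlt⟩ : ∃ b ∈ V, η / 2 * (U.card : ℝ) < (O b).card - η / 2 * (g b / Y) := by
    refine exists_lt_of_sum_lt ?_
    rw [sum_const, nsmul_eq_mul, sum_sub_distrib, ← mul_sum, ← sum_div]
    have h1 : (∑ b ∈ V, g b) / Y ≤ U.card * V.card := by
      rw [div_le_iff₀ hY]
      exact hcount
    have h2 := mul_le_mul_of_nonneg_left h1 (by positivity : 0 ≤ η / 2)
    linarith
  have hf1 : η / 2 * (U.card : ℝ) < (O b).card := by
    have : 0 ≤ η / 2 * (g b / Y) := by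
      have := hg0 b
      positivity
    linarith
  have hOc0 : (0 : ℝ) < (O b).card := lt_of_le_of_lt (by positivity) hf1
  have hOn : (O b).Nonempty := card_pos.1 (by exact_mod_cast hOc0)
  have hOU : O b ⊆ U := filter_subset _ _
  have hg1 : g b ≤ 2 / η * Y * U.card := by
    have h1 : ((O b).card : ℝ) ≤ U.card := by exact_mod_cast card_le_card hOU
    have h2 : η / 2 * (g b / Y) ≤ U.card := by
      have : 0 ≤ η / 2 * (U.card : ℝ) := by positivity
      linarith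
    have h3 : g b = 2 / η * Y * (η / 2 * (g b / Y)) := by
      field_simp
    rw [h3]
    exact mul_le_mul_of_nonneg_left h2 (by positivity)
  have hfl := flat_app4 π D hF hal hu hlam hρ hρ2 gam gl P J hPp U V hP (fun h => h0 (hUA h))
    st hst0 hR hO b hb
  change ((O b).card : ℝ) * ce (O b) gl (fun x => fun j : Fin J => fa x (P j)) ≤
    δ * (U.card * Real.log U.card + J * U.card) + 2 * ρ * J * U.card +
      Real.log (1 / ρ) * g b at hfl
  have hlow := fib_low5 R Pb hRp gam gl A (O b) hinj hlow (hOU.trans hUA) hOn (τ := κ / 2 * a)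
    (fun x hx => hfib x (hOU hx)) J P hPQ
  have hEO := hE (O b) (hOU.trans hUA)
  have hlogO : Real.log (η * κ / 4) + a ≤ Real.log (O b).card := by
    rw [ha, ← Real.log_mul (by positivity) hAc0.ne']
    refine Real.log_le_log (by positivity) ?_
    have h1 := mul_le_mul_of_nonneg_left hUc (by positivity : 0 ≤ η / 2)
    have h2 : η * κ / 4 * (A.card : ℝ) = η / 2 * (κ / 2 * A.card) := by ring
    rw [h2]
    linarith
  rw [← ha] at hlow
  have hce : κ / 2 * a + Real.log (η * κ / 4) - E ≤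
      ce (O b) gl (fun x => fun j : Fin J => fa x (P j)) := by linarith
  have h1 : η / 2 * U.card * (κ / 2 * a + Real.log (η * κ / 4) - E) ≤ (O b).card *
      ce (O b) gl (fun x => fun j : Fin J => fa x (P j)) :=
    mul_le_mul hf1.le hce hR0 hOc0.le
  have hlu : Real.log U.card ≤ a := by
    rw [ha]
    exact Real.log_le_log hUc0 (by exact_mod_cast card_le_card hUA)
  have h2 : δ * (U.card * Real.log U.card + J * U.card) ≤ δ * (a + J) * U.card := by
    have h3 : (U.card : ℝ) * Real.log U.card + J * U.card ≤ (a + J) * U.card := by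
      have := mul_le_mul_of_nonneg_left hlu hUc0.le
      linarith
    have := mul_le_mul_of_nonneg_left h3 hδ
    linarith
  have h3 : Real.log (1 / ρ) * g b ≤ Real.log (1 / ρ) * (2 / η * Y) * U.card := by
    have := mul_le_mul_of_nonneg_left hg1 hlρ
    linarith
  have h4 := mul_lt_mul_of_pos_right hnum hUc0
  linarith

end Pool.Agent.T2H12.KP
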