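import Mathlib
import Pool.Agent.T2H12.KP.SumA5
import Pool.Agent.T2H12.KP.SumB5

/-!
# Arbitrary sets of multipliers: almost all tuples of multipliers
-/

set_option autoImplicit false

namespace Pool.Agent.T2H12.KP

open Finset
open scoped Classical
open Pool.Agent.Y359.PE Pool.Agent.T2H12.KF Pool.Agent.T2H12.KD Pool.Agent.T2H12.KG
open Pool.Agent.T2H12.KH Pool.Agent.T2H12.KM

/-- `m A + V` -/
def dil (m : ℤ) (A V : Finset ℤ) : Finset ℤ := (A ×ˢ V).image fun s => m * s.1 + s.2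

/-- `l 0 A + ... + l (k - 1) A + B` -/
def dilSum (k : ℕ) (l : Fin k → ℤ) (A B : Finset ℤ) : Finset ℤ :=
  ((Fintype.piFinset fun _ : Fin k => A) ×ˢ B).image fun s => ∑ i, l i * s.1 i + s.2

/-- **All primes.** -/
theorem sumC5 {κ δ₁ : ℝ} (hκ : 0 < κ) (hδ₁ : 0 < δ₁) (M C : ℝ) :
    ∃ (K : ℕ) (δ a₀ : ℝ), 0 < δ ∧ 0 < a₀ ∧
    ∀ D : Finset ℤ, K ≤ D.card → (0 : ℤ) ∉ D →
    ∀ (A : Finset ℤ) (P Pb : Finset ℕ) (γ G : ℤ → ℤ), A.Nonempty → (0 : ℤ) ∉ A → Dec P γ G A →
      Pb ⊆ P → (∀ p ∈ P, p ∉ Pb → InjP D p) → (Pb.card : ℝ) ≤ δ * Real.log A.card →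
      (∀ U ⊆ A, ce U (gp P) γ ≤ δ * Real.log A.card) →
      a₀ ≤ Real.log A.card → (P.card : ℝ) ≤ C * Real.log A.card →
      h A G ≤ (1 - κ) * Real.log A.card →
      ∀ V : Finset ℤ, V.Nonempty → Real.log V.card ≤ M * Real.log A.card →
        ∃ m ∈ D, (1 - δ₁) * (Real.log A.card + Real.log V.card) ≤
          Real.log (dil m A V).card := by
  obtain ⟨K1, δa, a1, hδa, ha1, H1⟩ := sumA5 (half_pos hκ) hδ₁ M C
  obtain ⟨K2, δb, a2, hδb, ha2, H2⟩ := sumB5 (half_pos hκ) hδ₁ M C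
  refine ⟨max K1 K2, min δa δb, max a1 a2, lt_min hδa hδb, lt_max_of_lt_left ha1, ?_⟩
  intro D hDc hD0 A P Pb γ G hA h0 hdec hPb hinj hPbc hdt ha hPc hent V hV hVc
  have hL0 : 0 ≤ Real.log A.card := log_card_nonneg A
  have wa : ∀ x : ℝ, x ≤ min δa δb * Real.log A.card → x ≤ δa * Real.log A.card := fun x hx =>
    hx.trans (mul_le_mul_of_nonneg_right (min_le_left _ _) hL0)
  have wb : ∀ x : ℝ, x ≤ min δa δb * Real.log A.card → x ≤ δb * Real.log A.card := fun x hx =>
    hx.trans (mul_le_mul_of_nonneg_right (min_le_right _ _) hL0)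
  have e2 := glb_entropy hdec h0 hPb
  by_cases hc : κ / 2 * Real.log A.card ≤ ce A G (gp Pb)
  · exact H2 D ((le_max_right _ _).trans hDc) hD0 A Pb P Pb γ G hA h0 hdec hPb hPb hinj
      (wb _ hPbc) (fun U hU => wb _ (hdt U hU)) ((le_max_right _ _).trans ha) (wb _ hPbc) hPc hc
      V hV hVc
  · have c3 : h A (glb Pb G) ≤ (1 - κ / 2) * Real.log A.card := by
      push Not at hc
      rw [e2]
      linarith
    exact H1 D ((le_max_left _ _).trans hDc) hD0 A P Pb γ G hA h0 hdec hPb hinj (wa _ hPbc)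
      (fun U hU => wa _ (hdt U hU)) ((le_max_left _ _).trans ha) hPc c3 V hV hVc

lemma card_pf_le {n : ℕ} (hn : n ≠ 0) : (n.primeFactors.card : ℝ) * Real.log 2 ≤ Real.log n := by
  have h1 : 2 ^ n.primeFactors.card ≤ n := by
    calc 2 ^ n.primeFactors.card ≤ ∏ p ∈ n.primeFactors, p :=
          Finset.pow_card_le_prod _ _ _ fun p hp => (Nat.prime_of_mem_primeFactors hp).two_le
      _ ≤ n := Nat.le_of_dvd (Nat.pos_of_ne_zero hn) (Nat.prod_primeFactors_dvd n)
  have h2 : ((2 : ℝ) ^ n.primeFactors.card) ≤ n := by exact_mod_cast h1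
  have h3 := Real.log_le_log (by positivity) h2
  rwa [Real.log_pow] at h3

/-- the number of the bad primes -/
lemma card_bad (D : Finset ℤ) (P : Finset ℕ) (hP : ∀ p ∈ P, p.Prime) {x : ℝ} (hx : 1 ≤ x)
    (hD : ∀ m ∈ D, |(m : ℝ)| ≤ x) :
    ((P.filter fun p => ¬ InjP D p).card : ℝ) * Real.log 2 ≤
      (D.card : ℝ) ^ 2 * Real.log (2 * x) := by
  have hl2 : 0 < Real.log 2 := Real.log_pos (by norm_num)
  have h1 : P.filter (fun p => ¬ InjP D p) ⊆
      (D ×ˢ D).biUnion fun s => (s.1 - s.2).natAbs.primeFactors := by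
    intro p hp
    obtain ⟨hpP, hpi⟩ := mem_filter.1 hp
    unfold InjP at hpi
    push Not at hpi
    obtain ⟨m, hm, m', hm', hd, hne⟩ := hpi
    refine mem_biUnion.2 ⟨(m, m'), mem_product.2 ⟨hm, hm'⟩, ?_⟩
    rw [Nat.mem_primeFactors]
    refine ⟨hP p hpP, Int.natCast_dvd.1 hd, ?_⟩
    rw [Int.natAbs_ne_zero]
    exact sub_ne_zero.2 hne
  have h2 : ((P.filter fun p => ¬ InjP D p).card : ℝ) ≤
      ∑ s ∈ D ×ˢ D, ((s.1 - s.2).natAbs.primeFactors.card : ℝ) := by
    exact_mod_cast (card_le_card h1).trans card_biUnion_le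
  have h3 : ∀ s ∈ D ×ˢ D, ((s.1 - s.2).natAbs.primeFactors.card : ℝ) * Real.log 2 ≤
      Real.log (2 * x) := by
    intro s hs
    obtain ⟨hs1, hs2⟩ := mem_product.1 hs
    rcases eq_or_ne (s.1 - s.2) 0 with h | h
    · rw [h]
      simp only [Int.natAbs_zero, Nat.primeFactors_zero, card_empty, Nat.cast_zero, zero_mul]
      exact Real.log_nonneg (by linarith)
    · have h4 := card_pf_le (n := (s.1 - s.2).natAbs) (Int.natAbs_ne_zero.2 h)
      refine h4.trans (Real.log_le_log ?_ ?_)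
      · exact_mod_cast Int.natAbs_pos.2 h
      · have h5 : (((s.1 - s.2).natAbs : ℕ) : ℝ) = |(s.1 : ℝ) - s.2| := by
          rw [Nat.cast_natAbs]
          push_cast
          rfl
        rw [h5]
        refine (abs_sub _ _).trans ?_
        linarith [hD _ hs1, hD _ hs2]
  calc ((P.filter fun p => ¬ InjP D p).card : ℝ) * Real.log 2
      ≤ (∑ s ∈ D ×ˢ D, ((s.1 - s.2).natAbs.primeFactors.card : ℝ)) * Real.log 2 :=
        mul_le_mul_of_nonneg_right h2 hl2.le
    _ = ∑ s ∈ D ×ˢ D, ((s.1 - s.2).natAbs.primeFactors.card : ℝ) * Real.log 2 := by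
        rw [sum_mul]
    _ ≤ ∑ s ∈ D ×ˢ D, Real.log (2 * x) := sum_le_sum h3
    _ = (D.card : ℝ) ^ 2 * Real.log (2 * x) := by
        rw [sum_const, card_product, nsmul_eq_mul]
        push_cast
        ring

/-- **Boundedly many exceptional multipliers.** -/
theorem few_bad {κ δ₁ : ℝ} (hκ : 0 < κ) (hδ₁ : 0 < δ₁) (M C : ℝ) :
    ∃ (K : ℕ) (δ a₀ : ℝ), 0 < δ ∧ 0 < a₀ ∧
    ∀ (A : Finset ℤ) (P : Finset ℕ) (γ G : ℤ → ℤ), A.Nonempty → (0 : ℤ) ∉ A → Dec P γ G A →
      (∀ U ⊆ A, ce U (gp P) γ ≤ δ * Real.log A.card) →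
      a₀ ≤ Real.log A.card → (P.card : ℝ) ≤ C * Real.log A.card →
      h A G ≤ (1 - κ) * Real.log A.card →
      ∀ H : Finset ℤ, (0 : ℤ) ∉ H → (∀ m ∈ H, |(m : ℝ)| ≤ (A.card : ℝ) ^ δ) →
      ∀ V : Finset ℤ, V.Nonempty → Real.log V.card ≤ M * Real.log A.card →
        (H.filter fun m => Real.log (dil m A V).card <
          (1 - δ₁) * (Real.log A.card + Real.log V.card)).card ≤ K := by
  obtain ⟨K, δb, a1, hδb, ha1, H1⟩ := sumC5 hκ hδ₁ M C
  have hl2 : 0 < Real.log 2 := Real.log_pos (by norm_num)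
  set δ : ℝ := min δb (δb * Real.log 2 / (2 * ((K : ℝ) ^ 2 + 1))) with hδd
  have hδ : 0 < δ := by positivity
  refine ⟨K, δ, max a1 (2 * (K : ℝ) ^ 2 / δb), hδ, lt_max_of_lt_left ha1, ?_⟩
  intro A P γ G hA h0 hdec hdt ha hPc hent H hH0 hH V hV hVc
  have hAc : (1 : ℝ) ≤ A.card := by exact_mod_cast card_pos.2 hA
  have hA0 : (0 : ℝ) < A.card := by linarith
  set a := Real.log A.card with had
  have ha0 : 0 ≤ a := Real.log_nonneg hAc
  by_contra hcon
  rw [not_le] at hcon
  obtain ⟨D, hDH, hDc⟩ := exists_subset_card_eq hcon.le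
  have hDH' : D ⊆ H := hDH.trans (filter_subset _ _)
  have hD0 : (0 : ℤ) ∉ D := fun h => hH0 (hDH' h)
  set Pb := P.filter fun p => ¬ InjP D p with hPb
  have h1 := card_bad D P hdec.prime (x := (A.card : ℝ) ^ δ) (Real.one_le_rpow hAc hδ.le)
    fun m hm => hH m (hDH' hm)
  rw [Real.log_mul (by norm_num) (by positivity), Real.log_rpow hA0, hDc] at h1
  have h2 : (Pb.card : ℝ) ≤ δb * a := by
    have h3 : (Pb.card : ℝ) * Real.log 2 ≤ δb * a * Real.log 2 := by
      refine h1.trans ?_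
      have h4 : 2 * (K : ℝ) ^ 2 / δb ≤ a := (le_max_right _ _).trans ha
      rw [div_le_iff₀ hδb] at h4
      have h5 : δ * (2 * ((K : ℝ) ^ 2 + 1)) ≤ δb * Real.log 2 := by
        have h6 : δ ≤ δb * Real.log 2 / (2 * ((K : ℝ) ^ 2 + 1)) := min_le_right _ _
        rwa [le_div_iff₀ (by positivity)] at h6
      have h6 : (K : ℝ) ^ 2 * (δ * a) ≤ δb * Real.log 2 / 2 * a := by
        have h7 : (K : ℝ) ^ 2 * δ ≤ δb * Real.log 2 / 2 := by nlinarith
        have := mul_le_mul_of_nonneg_right h7 ha0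
        linarith
      have h7 : (K : ℝ) ^ 2 * Real.log 2 ≤ δb * a / 2 * Real.log 2 :=
        mul_le_mul_of_nonneg_right (by linarith) hl2.le
      calc (K : ℝ) ^ 2 * (Real.log 2 + δ * a) = (K : ℝ) ^ 2 * Real.log 2 +
            (K : ℝ) ^ 2 * (δ * a) := by ring
        _ ≤ δb * a / 2 * Real.log 2 + δb * Real.log 2 / 2 * a := add_le_add h7 h6
        _ = δb * a * Real.log 2 := by ring
    exact le_of_mul_le_mul_right h3 hl2
  obtain ⟨m, hm, hle⟩ := H1 D hDc.ge hD0 A P Pb γ G hA h0 hdec (filter_subset _ _) (by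
      intro p hp hpb
      by_contra hcon2
      exact hpb (mem_filter.2 ⟨hp, hcon2⟩)) h2 (fun U hU => (hdt U hU).trans
      (mul_le_mul_of_nonneg_right (min_le_left _ _) ha0)) ((le_max_left _ _).trans ha) hPc hent V
      hV hVc
  have h3 := (mem_filter.1 (hDH hm)).2
  linarith

lemma dil_nonempty (m : ℤ) {A V : Finset ℤ} (hA : A.Nonempty) (hV : V.Nonempty) :
    (dil m A V).Nonempty := (hA.product hV).image _

lemma dil_card_le (m : ℤ) (A V : Finset ℤ) : (dil m A V).card ≤ A.card * V.card :=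
  card_image_le.trans (card_product _ _).le

lemma dilSum_zero (l : Fin 0 → ℤ) (A B : Finset ℤ) : dilSum 0 l A B = B := by
  ext x
  unfold dilSum
  simp only [mem_image, mem_product, Fintype.mem_piFinset, univ_eq_empty, sum_empty, zero_add,
    Prod.exists]
  constructor
  · rintro ⟨_, b, ⟨_, hb⟩, rfl⟩
    exact hb
  · intro hx
    exact ⟨Fin.elim0, x, ⟨fun i => i.elim0, hx⟩, rfl⟩

lemma dilSum_succ (k : ℕ) (l : Fin (k + 1) → ℤ) (A B : Finset ℤ) :
    dilSum k (Fin.tail l) A (dil (l 0) A B) ⊆ dilSum (k + 1) l A B := by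
  intro x hx
  obtain ⟨⟨f, b⟩, hfb, rfl⟩ := mem_image.1 hx
  obtain ⟨hf, hb⟩ := mem_product.1 hfb
  obtain ⟨⟨a, b'⟩, hab, rfl⟩ := mem_image.1 hb
  obtain ⟨ha, hb'⟩ := mem_product.1 hab
  refine mem_image.2 ⟨(Fin.cons a f, b'), mem_product.2 ⟨Fintype.mem_piFinset.2 fun i => ?_, hb'⟩,
    ?_⟩
  · refine Fin.cases ?_ (fun j => ?_) i
    · simpa using ha
    · simpa using Fintype.mem_piFinset.1 hf j
  · simp only [Fin.sum_univ_succ, Fin.cons_zero, Fin.cons_succ, Fin.tail]
    ring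

lemma dilSum_nonempty (k : ℕ) (l : Fin k → ℤ) {A B : Finset ℤ} (hA : A.Nonempty)
    (hB : B.Nonempty) : (dilSum k l A B).Nonempty := by
  obtain ⟨a, ha⟩ := hA
  obtain ⟨b, hb⟩ := hB
  exact ⟨_, mem_image_of_mem _ (mem_product.2 ⟨Fintype.mem_piFinset.2 fun _ => ha, hb⟩ :
    ((fun _ => a, b) : (Fin k → ℤ) × ℤ) ∈ _)⟩

lemma dilSum_card_ge (k : ℕ) (l : Fin k → ℤ) {A B : Finset ℤ} (hA : A.Nonempty) :
    B.card ≤ (dilSum k l A B).card := by
  obtain ⟨a, ha⟩ := hA
  refine card_le_card_of_injOn (fun b => ∑ i, l i * a + b) ?_ ?_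
  · intro b hb
    exact mem_coe.2 (mem_image.2 ⟨(fun _ => a, b), mem_product.2
      ⟨Fintype.mem_piFinset.2 fun _ => ha, hb⟩, rfl⟩)
  · intro b _ b' _ h
    simpa using h

/-- **The number of the exceptional tuples.** -/
theorem count_tuples {A H : Finset ℤ} (hA : A.Nonempty) {M δ₁ : ℝ} (hδ₁ : 0 ≤ δ₁) (hδ1 : δ₁ ≤ 1)
    {K : ℕ} (hbad : ∀ V : Finset ℤ, V.Nonempty → Real.log V.card ≤ M * Real.log A.card →
      (H.filter fun m => Real.log (dil m A V).card <
        (1 - δ₁) * (Real.log A.card + Real.log V.card)).card ≤ K) :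
    ∀ (k : ℕ) (B : Finset ℤ), B.Nonempty →
      k * Real.log A.card + Real.log B.card ≤ M * Real.log A.card →
      ((Fintype.piFinset fun _ : Fin k => H).filter fun l => Real.log (dilSum k l A B).card <
        (1 - δ₁) ^ k * (k * Real.log A.card + Real.log B.card)).card ≤
        k * K * H.card ^ (k - 1) := by
  intro k
  induction k with
  | zero =>
    intro B hB _
    rw [filter_false_of_mem, card_empty]
    · exact Nat.zero_le _
    · intro l _
      rw [dilSum_zero]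
      simp
  | succ k ih =>
    intro B hB hMB
    set a := Real.log A.card with had
    have ha : 0 ≤ a := log_card_nonneg A
    set b := Real.log B.card with hbd
    have hb : 0 ≤ b := log_card_nonneg B
    have hk0 : (0 : ℝ) ≤ k := Nat.cast_nonneg k
    push_cast at hMB ⊢
    set T := Fintype.piFinset fun _ : Fin k => H with hT
    set Bad := H.filter fun m => Real.log (dil m A B).card < (1 - δ₁) * (a + b) with hBad
    set R : ℤ → Finset (Fin k → ℤ) := fun m => T.filter fun l =>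
      Real.log (dilSum k l A (dil m A B)).card <
        (1 - δ₁) ^ k * (k * a + Real.log (dil m A B).card) with hR
    have hsub : ((Fintype.piFinset fun _ : Fin (k + 1) => H).filter fun l =>
        Real.log (dilSum (k + 1) l A B).card < (1 - δ₁) ^ (k + 1) * ((k + 1) * a + b)) ⊆
        ((Bad ×ˢ T) ∪ H.biUnion fun m => ({m} : Finset ℤ) ×ˢ R m).image
          fun s : ℤ × (Fin k → ℤ) => (Fin.cons s.1 s.2 : Fin (k + 1) → ℤ) := by
      intro l hl
      obtain ⟨hlH, hlt⟩ := mem_filter.1 hl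
      have hlH' : ∀ i, l i ∈ H := fun i => Fintype.mem_piFinset.1 hlH i
      have htail : Fin.tail l ∈ T := Fintype.mem_piFinset.2 fun i => hlH' i.succ
      refine mem_image.2 ⟨(l 0, Fin.tail l), ?_, Fin.cons_self_tail l⟩
      rw [mem_union]
      by_cases h0 : l 0 ∈ Bad
      · exact Or.inl (mem_product.2 ⟨h0, htail⟩)
      · right
        refine mem_biUnion.2 ⟨l 0, hlH' 0, mem_product.2 ⟨mem_singleton_self _, ?_⟩⟩
        refine mem_filter.2 ⟨htail, ?_⟩
        have h1 : (1 - δ₁) * (a + b) ≤ Real.log (dil (l 0) A B).card := by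
          by_contra hcon
          exact h0 (mem_filter.2 ⟨hlH' 0, not_le.1 hcon⟩)
        have h2 : Real.log (dilSum k (Fin.tail l) A (dil (l 0) A B)).card ≤
            Real.log (dilSum (k + 1) l A B).card :=
          log_card_mono (dilSum_nonempty _ _ hA (dil_nonempty _ hA hB)) (dilSum_succ k l A B)
        refine lt_of_le_of_lt h2 (hlt.trans_le ?_)
        rw [pow_succ, mul_assoc]
        refine mul_le_mul_of_nonneg_left ?_ (pow_nonneg (by linarith) _)
        have h3 : 0 ≤ δ₁ * (k * a) := by positivity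
        linarith
    have h1 := card_le_card hsub
    have h2 : (((Bad ×ˢ T) ∪ H.biUnion fun m => ({m} : Finset ℤ) ×ˢ R m).image
          fun s : ℤ × (Fin k → ℤ) => (Fin.cons s.1 s.2 : Fin (k + 1) → ℤ)).card ≤
        K * H.card ^ k + H.card * (k * K * H.card ^ (k - 1)) := by
      refine card_image_le.trans ((card_union_le _ _).trans (add_le_add ?_ ?_))
      · rw [card_product]
        have h3 : T.card = H.card ^ k := by
          rw [hT, Fintype.card_piFinset]
          simp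
        rw [h3]
        refine Nat.mul_le_mul_right _ (hbad B hB ?_)
        have : 0 ≤ ((k : ℝ) + 1) * a := by positivity
        linarith
      · refine card_biUnion_le.trans ?_
        rw [← smul_eq_mul, ← sum_const]
        refine sum_le_sum fun m _ => ?_
        rw [card_product, card_singleton, one_mul]
        refine ih (dil m A B) (dil_nonempty m hA hB) ?_
        have h3 : ((dil m A B).card : ℝ) ≤ A.card * B.card := by exact_mod_cast dil_card_le m A B
        have hd0 : (0 : ℝ) < (dil m A B).card := by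
          exact_mod_cast card_pos.2 (dil_nonempty m hA hB)
        have hA0 : (0 : ℝ) < A.card := by exact_mod_cast card_pos.2 hA
        have hB0 : (0 : ℝ) < B.card := by exact_mod_cast card_pos.2 hB
        have h4 := Real.log_le_log hd0 h3
        rw [Real.log_mul hA0.ne' hB0.ne'] at h4
        linarith
    refine h1.trans (h2.trans (le_of_eq ?_))
    rcases k with _ | k
    · simp
    · simp only [Nat.add_sub_cancel]
      ring

/-- **The sum side for arbitrary sets of multipliers.** -/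
theorem sum_fin5 (k : ℕ) {κ ε : ℝ} (hκ : 0 < κ) (hε : 0 < ε) (hε1 : ε ≤ 1) (C : ℝ) :
    ∃ (K : ℕ) (δ c : ℝ), 0 < δ ∧ 0 < c ∧
    ∀ (A : Finset ℤ) (P : Finset ℕ) (γ G : ℤ → ℤ), A.Nonempty → (0 : ℤ) ∉ A → Dec P γ G A →
      (∀ U ⊆ A, ce U (gp P) γ ≤ δ * Real.log A.card) → (P.card : ℝ) ≤ C * Real.log A.card →
      h A G ≤ (1 - κ) * Real.log A.card →
      ∀ H : Finset ℤ, (0 : ℤ) ∉ H → (∀ m ∈ H, |(m : ℝ)| ≤ (A.card : ℝ) ^ δ) →
      ∀ B : Finset ℤ, B.Nonempty →
        ((Fintype.piFinset fun _ : Fin k => H).filter fun l => ((dilSum k l A B).card : ℝ) <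
          c * ((A.card : ℝ) ^ k * B.card) ^ (1 - ε)).card ≤ K * H.card ^ (k - 1) := by
  have hk0 : (0 : ℝ) ≤ k := Nat.cast_nonneg k
  set δ₁ : ℝ := ε / (4 * (k + 1)) with hδ₁d
  have hδ₁ : 0 < δ₁ := by positivity
  have hδk : δ₁ * (k + 1) = ε / 4 := by
    rw [hδ₁d]
    field_simp
  have hδ₁1 : δ₁ ≤ 1 := by nlinarith
  set M : ℝ := k + k / ε + 1 with hM
  obtain ⟨K', δ, a₀, hδ, ha₀, hside⟩ := few_bad hκ hδ₁ M C
  refine ⟨k * K', δ, Real.exp (-(k * a₀)), hδ, Real.exp_pos _, ?_⟩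
  intro A P γ G hA h0 hdec hdt hQc hent H hH0 hHs B hB
  have hAc : (1 : ℝ) ≤ A.card := by exact_mod_cast card_pos.2 hA
  have hA0 : (0 : ℝ) < A.card := by linarith
  set a := Real.log A.card with had
  have ha : 0 ≤ a := Real.log_nonneg hAc
  have hBc : (1 : ℝ) ≤ B.card := by exact_mod_cast card_pos.2 hB
  have hB0 : (0 : ℝ) < B.card := by linarith
  set b := Real.log B.card with hbd
  have hb : 0 ≤ b := Real.log_nonneg hBc
  have hX : (0 : ℝ) < (A.card : ℝ) ^ k * B.card := by positivity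
  have hlX : Real.log ((A.card : ℝ) ^ k * B.card) = k * a + b := by
    rw [Real.log_mul (by positivity) hB0.ne', Real.log_pow]
  have hXp : (0 : ℝ) < ((A.card : ℝ) ^ k * B.card) ^ (1 - ε) := Real.rpow_pos_of_pos hX _
  have htB : ∀ l : Fin k → ℤ, (B.card : ℝ) ≤ (dilSum k l A B).card :=
    fun l => by exact_mod_cast dilSum_card_ge k l hA
  have htp : ∀ l : Fin k → ℤ, (0 : ℝ) < (dilSum k l A B).card := fun l => by
    linarith [htB l]
  have hb1 : ∀ l : Fin k → ℤ, b ≤ Real.log (dilSum k l A B).card :=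
    fun l => Real.log_le_log hB0 (htB l)
  have hlog : ∀ l : Fin k → ℤ, -(k * a₀) + (1 - ε) * (k * a + b) ≤
      Real.log (dilSum k l A B).card →
      Real.exp (-(k * a₀)) * ((A.card : ℝ) ^ k * B.card) ^ (1 - ε) ≤
        (dilSum k l A B).card := by
    intro l hl
    rw [← Real.log_le_log_iff (mul_pos (Real.exp_pos _) hXp) (htp l),
      Real.log_mul (Real.exp_pos _).ne' hXp.ne', Real.log_exp, Real.log_rpow hX, hlX]
    exact hl
  have hka0 : 0 ≤ k * a₀ := by positivity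
  have hall : (∀ l : Fin k → ℤ, -(k * a₀) + (1 - ε) * (k * a + b) ≤
      Real.log (dilSum k l A B).card) →
      ((Fintype.piFinset fun _ : Fin k => H).filter fun l => ((dilSum k l A B).card : ℝ) <
          Real.exp (-(k * a₀)) * ((A.card : ℝ) ^ k * B.card) ^ (1 - ε)).card ≤
        k * K' * H.card ^ (k - 1) := by
    intro hl
    rw [filter_false_of_mem, card_empty]
    · exact Nat.zero_le _
    · intro l _
      exact not_lt.2 (hlog l (hl l))
  rcases lt_or_ge a a₀ with haa | haa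
  · -- small sets
    refine hall fun l => ?_
    have h1 : k * a ≤ k * a₀ := mul_le_mul_of_nonneg_left haa.le hk0
    have h2 : 0 ≤ ε * (k * a + b) := by positivity
    linarith [hb1 l]
  rcases lt_or_ge (k / ε * a) b with hbb | hbb
  · -- large `B`
    refine hall fun l => ?_
    have h1 : k * a ≤ ε * b := by
      have h2 := mul_le_mul_of_nonneg_left hbb.le hε.le
      have h3 : ε * (k / ε * a) = k * a := by field_simp
      linarith
    have h2 : (1 - ε) * (k * a + b) ≤ (1 - ε) * (ε * b + b) :=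
      mul_le_mul_of_nonneg_left (by linarith) (by linarith)
    have h3 : 0 ≤ ε ^ 2 * b := by positivity
    have h4 : (1 - ε) * (ε * b + b) = b - ε ^ 2 * b := by ring
    linarith [hb1 l]
  · -- the main case
    have h1 := count_tuples (A := A) (H := H) hA (M := M) hδ₁.le hδ₁1 (K := K')
      (fun V hV hVc => hside A P γ G hA h0 hdec hdt haa hQc hent H hH0 hHs V hV hVc) k B hB (by
        change k * a + b ≤ M * a
        have h5 : M * a = k * a + k / ε * a + a := by
          rw [hM]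
          ring
        rw [h5]
        linarith)
    refine le_trans (card_le_card ?_) h1
    intro l hl
    obtain ⟨hl1, hl2⟩ := mem_filter.1 hl
    refine mem_filter.2 ⟨hl1, ?_⟩
    by_contra hcon
    rw [not_lt] at hcon
    refine absurd (hlog l ?_) (not_le.2 hl2)
    refine le_trans ?_ hcon
    have h3 := one_add_mul_le_pow (a := -δ₁) (by linarith) k
    have h4 : (1 : ℝ) + -δ₁ = 1 - δ₁ := by ring
    rw [h4] at h3
    have h5 : 1 - ε / 4 ≤ (1 - δ₁) ^ k := by nlinarith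
    have h7 : (1 - ε / 4) * (k * a + b) ≤ (1 - δ₁) ^ k * (k * a + b) :=
      mul_le_mul_of_nonneg_right h5 (by positivity)
    have h8 : (1 - ε) * (k * a + b) ≤ (1 - ε / 4) * (k * a + b) :=
      mul_le_mul_of_nonneg_right (by linarith) (by positivity)
    linarith

end Pool.Agent.T2H12.KP
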