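import Mathlib
import Pool.Agent.T2H12.KO.Str6
import Pool.Agent.T2H12.KP.Fin5

/-!
# All finite sets and arbitrary sets of multipliers: assembly
-/

set_option autoImplicit false

namespace Pool.Agent.T2H12.KP

open Finset
open scoped Classical
open Pool.Agent.Y359.PE Pool.Agent.T2H12.KF Pool.Agent.T2H12.KD Pool.Agent.T2H12.KG
open Pool.Agent.T2H12.KH Pool.Agent.T2H12.KM Pool.Agent.T2H12.KN Pool.Agent.T2H12.KO

lemma dilSum_mono (k : ℕ) (l : Fin k → ℤ) {A A' : Finset ℤ} (h : A' ⊆ A) (B : Finset ℤ) :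
    dilSum k l A' B ⊆ dilSum k l A B :=
  image_subset_image (product_subset_product (Fintype.piFinset_subset _ _ fun _ => h)
    (Subset.refl _))

lemma dilSum_smul (k : ℕ) (l : Fin k → ℤ) (M : ℤ) (A B : Finset ℤ) :
    (dilSum k l (A.image fun a => M * a) (B.image fun b => M * b)).card ≤
      (dilSum k l A B).card := by
  refine le_trans (card_le_card ?_) (card_image_le (s := dilSum k l A B) (f := fun x => M * x))
  intro x hx
  obtain ⟨⟨f, b⟩, hfb, rfl⟩ := mem_image.1 hx
  obtain ⟨hf, hb⟩ := mem_product.1 hfb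
  obtain ⟨b', hb', rfl⟩ := mem_image.1 hb
  have hf' : ∀ i, ∃ a ∈ A, M * a = f i := fun i => mem_image.1 (Fintype.mem_piFinset.1 hf i)
  choose g hg hgf using hf'
  refine mem_image.2 ⟨∑ i, l i * g i + b', mem_image.2 ⟨(g, b'), mem_product.2
    ⟨Fintype.mem_piFinset.2 hg, hb'⟩, rfl⟩, ?_⟩
  simp only [← hgf]
  rw [mul_add, mul_sum]
  congr 1
  exact sum_congr rfl fun i _ => by ring

/-- **All sets with few products.** -/
theorem main7 (k : ℕ) (hk : 1 ≤ k) (j : ℕ) {η ε : ℝ} (hη : 0 < η) (hη1 : η ≤ 1) (hε : 0 < ε)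
    (hε1 : ε ≤ 1) :
    ∃ (K : ℕ) (δ c : ℝ), 0 < δ ∧ 0 < c ∧ ∀ A : Finset ℤ, A.Nonempty → (0 : ℤ) ∉ A →
      ((pk (k + 1) A).card : ℝ) ≤ (A.card : ℝ) ^ ((k : ℝ) + 1 - η) →
      ∀ H : Finset ℤ, (0 : ℤ) ∉ H → (∀ m ∈ H, |(m : ℝ)| ≤ (A.card : ℝ) ^ δ) →
      ∀ B : Finset ℤ, B.Nonempty →
        ((Fintype.piFinset fun _ : Fin j => H).filter fun l => ((dilSum j l A B).card : ℝ) <
          c * ((A.card : ℝ) ^ j * B.card) ^ (1 - ε)).card ≤ K * H.card ^ (j - 1) := by
  have hkr : (1 : ℝ) ≤ k := by exact_mod_cast hk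
  have hl2 : 0 < Real.log 2 := Real.log_pos (by norm_num)
  obtain ⟨N, C, a₁, hC, ha₁, hstr⟩ := structure6 k hk hη hη1
  set g : ℝ := η / (16 * (k + 1)) with hg
  have hg0 : 0 < g := by positivity
  have hg1 : g ≤ 1 := by
    rw [hg, div_le_one (by positivity)]
    linarith
  obtain ⟨K, δ, c, hδ, hc, hsum⟩ := sum_fin5 j (κ := g) hg0 (half_pos hε) (by linarith) (2 * C)
  set E : ℝ := 16 * (k + 1) / η * (k + N + 1) with hE
  have hE0 : 0 < E := by positivity
  set D : ℝ := Real.log 24 + Real.log 144 with hD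
  have hl24 : 0 < Real.log 24 := Real.log_pos (by norm_num)
  have hl144 : 0 < Real.log 144 := Real.log_pos (by norm_num)
  obtain ⟨a₂, hlin⟩ := log_lin D E hE0 (c := min g (ε / 4)) (by positivity)
  set a₀ : ℝ := max a₁ a₂ with ha₀
  have ha₀0 : 0 ≤ a₀ := ha₁.trans (le_max_left _ _)
  refine ⟨K, δ / 2, min c (Real.exp (-(j * a₀))), by positivity, by positivity, ?_⟩
  intro A hA h0 hfew H hH0 hHs B hB
  have hAc : (1 : ℝ) ≤ A.card := by exact_mod_cast card_pos.2 hA
  have hA0 : (0 : ℝ) < A.card := by linarith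
  have hBc : (1 : ℝ) ≤ B.card := by exact_mod_cast card_pos.2 hB
  have hB0 : (0 : ℝ) < B.card := by linarith
  set a := Real.log A.card with had
  have ha : 0 ≤ a := Real.log_nonneg hAc
  have hj0 : (0 : ℝ) ≤ j := Nat.cast_nonneg j
  have hX1 : 1 ≤ (A.card : ℝ) ^ j * B.card := by
    have := one_le_pow₀ hAc (n := j)
    exact one_le_mul_of_one_le_of_one_le this hBc
  rcases lt_or_ge a a₀ with haa | haa
  · -- small sets
    rw [filter_false_of_mem, card_empty]
    · exact Nat.zero_le _
    intro l _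
    rw [not_lt]
    have h1 : (B.card : ℝ) ≤ (dilSum j l A B).card := by
      exact_mod_cast dilSum_card_ge j l hA
    refine le_trans ?_ h1
    have h2 : ((A.card : ℝ) ^ j * B.card) ^ (1 - ε) ≤ (A.card : ℝ) ^ j * B.card := by
      conv_rhs => rw [← Real.rpow_one ((A.card : ℝ) ^ j * B.card)]
      exact Real.rpow_le_rpow_of_exponent_le hX1 (by linarith)
    have h3 : (A.card : ℝ) ^ j ≤ Real.exp (j * a₀) := by
      rw [← Real.exp_log (by positivity : (0 : ℝ) < (A.card : ℝ) ^ j), Real.log_pow]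
      exact Real.exp_le_exp.2 (mul_le_mul_of_nonneg_left haa.le hj0)
    calc min c (Real.exp (-(j * a₀))) * ((A.card : ℝ) ^ j * B.card) ^ (1 - ε)
        ≤ Real.exp (-(j * a₀)) * (Real.exp (j * a₀) * B.card) := by
          refine mul_le_mul (min_le_right _ _) (h2.trans ?_) (by positivity) (by positivity)
          exact mul_le_mul_of_nonneg_right h3 hB0.le
      _ = B.card := by
          rw [← mul_assoc, ← Real.exp_add]
          simp
  -- large sets
  have hpk0 : (0 : ℝ) < (pk (k + 1) A).card := by exact_mod_cast card_pos.2 (pk_nonempty hA)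
  have hlfew : Real.log (pk (k + 1) A).card ≤ (k + 1 - η) * a := by
    have h1 := Real.log_le_log hpk0 hfew
    rwa [Real.log_rpow hA0] at h1
  obtain ⟨A', P, M, γ, G, p, hA', hPc, hM, hdec, hce, hc1, hz, hp, hp1, hA'c, hG⟩ :=
    hstr A hA h0 hlfew ((le_max_left _ _).trans haa)
  have hlp : -Real.log p ≤ Real.log (E * (a + 1)) := by
    have h1 := Real.log_le_log (by positivity) hp1
    rw [one_div, Real.log_inv] at h1
    refine h1.trans (le_of_eq ?_)
    congr 1
    rw [hE]
    ring
  have hlin1 := hlin a ((le_max_right _ _).trans haa) ha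
  have hlin2 : D + 3 * -Real.log p ≤ g * a := by
    have := mul_le_mul_of_nonneg_right (min_le_left g (ε / 4)) ha
    linarith
  have hlin3 : D + 3 * -Real.log p ≤ ε / 4 * a := by
    have := mul_le_mul_of_nonneg_right (min_le_right g (ε / 4)) ha
    linarith
  set A₁ := A'.image fun a => M * a with hA₁
  have hA'0 : (0 : ℝ) < A'.card := by
    have : 0 < p ^ 2 * (A.card : ℝ) := by positivity
    linarith
  have hA'n : A'.Nonempty := card_pos.1 (by exact_mod_cast hA'0)
  have hA₁n : A₁.Nonempty := hA'n.image _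
  have hA₁c : (A₁.card : ℝ) = A'.card := by exact_mod_cast hc1
  set a' := Real.log A₁.card with ha'
  have hI0 : (0 : ℝ) < (A₁.image G).card := by exact_mod_cast card_pos.2 (hA₁n.image _)
  have ha'a : a + 2 * Real.log p - Real.log 144 ≤ a' := by
    have h1 := Real.log_le_log (by positivity) hA'c
    rw [Real.log_mul (by positivity) hA0.ne', Real.log_mul (by norm_num) hA'0.ne',
      Real.log_pow] at h1
    rw [ha', hA₁c]
    push_cast at h1
    linarith
  have hGl : Real.log (A₁.image G).card ≤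
      Real.log 24 + (1 - η / (8 * (k + 1))) * a - Real.log p := by
    have h1 := Real.log_le_log (by positivity) hG
    rw [Real.log_mul hp.ne' hI0.ne', Real.log_mul (by norm_num) (Real.exp_pos _).ne',
      Real.log_exp] at h1
    linarith
  have hlp0 : Real.log p ≤ Real.log 24 := by
    have h1 : (A'.card : ℝ) ≤ A.card := by exact_mod_cast card_le_card hA'
    have h2 : p ^ 2 * (A.card : ℝ) ≤ 144 * A.card := hA'c.trans (by linarith)
    have h3 : p ^ 2 ≤ 144 := le_of_mul_le_mul_right h2 hA0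
    have h4 : p ≤ 12 := (pow_le_pow_iff_left₀ hp.le (by norm_num : (0 : ℝ) ≤ 12) two_ne_zero).1 (by
      rw [show (12 : ℝ) ^ 2 = 144 by norm_num]
      exact h3)
    exact Real.log_le_log hp (by linarith)
  have hlp1 : 0 ≤ -2 * Real.log p + Real.log 144 := by
    have h1 : (A'.card : ℝ) ≤ A.card := by exact_mod_cast card_le_card hA'
    have h2 : p ^ 2 * (A.card : ℝ) ≤ 144 * A.card := hA'c.trans (by linarith)
    have h3 : p ^ 2 ≤ 144 := le_of_mul_le_mul_right h2 hA0
    have h4 := Real.log_le_log (by positivity) h3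
    rw [Real.log_pow] at h4
    push_cast at h4
    linarith
  have hg2 : η / (8 * ((k : ℝ) + 1)) = 2 * g := by
    rw [hg]
    field_simp
    ring
  rw [hg2] at hGl
  have hhG : h A₁ G ≤ (1 - g) * a' := by
    have h1 : h A₁ G ≤ Real.log (A₁.image G).card := h_le_log' hA₁n G
    have h2 : (1 - g) * (a + 2 * Real.log p - Real.log 144) ≤ (1 - g) * a' :=
      mul_le_mul_of_nonneg_left ha'a (by linarith)
    have h3 : 0 ≤ g * (-2 * Real.log p + Real.log 144) := mul_nonneg hg0.le hlp1
    linarith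
  have haa' : a ≤ 2 * a' := by
    have h1 : g * a ≤ a := mul_le_of_le_one_left ha hg1
    have h2 : D + 3 * -Real.log p ≤ ε / 4 * a := hlin3
    have h3 : ε / 4 * a ≤ 1 / 4 * a := mul_le_mul_of_nonneg_right (by linarith) ha
    have h4 : 0 ≤ Real.log 24 := hl24.le
    linarith
  have hPc1 : (P.card : ℝ) ≤ 2 * C * Real.log A₁.card := by
    refine hPc.trans ?_
    have h2 := mul_le_mul_of_nonneg_left haa' hC.le
    change C * a ≤ 2 * C * a'
    linarith
  have hB1n : (B.image fun b => M * b).Nonempty := hB.image _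
  have hB1c : (B.image fun b => M * b).card = B.card :=
    card_image_of_injective _ fun x y hxy => mul_left_cancel₀ hM hxy
  have hA₁1 : (1 : ℝ) ≤ A₁.card := by exact_mod_cast card_pos.2 hA₁n
  have hbig := hsum A₁ P γ G hA₁n hz hdec (fun U hU => (hce U hU).trans (by
    have : 0 ≤ Real.log (A₁.card : ℝ) := log_card_nonneg A₁
    positivity)) hPc1 hhG H hH0 (fun m hm => (hHs m hm).trans (by
      rw [← Real.log_le_log_iff (by positivity) (by positivity), Real.log_rpow hA0,
        Real.log_rpow (by linarith)]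
      change δ / 2 * a ≤ δ * a'
      have h9 := mul_le_mul_of_nonneg_left haa' hδ.le
      linarith)) (B.image fun b => M * b) hB1n
  refine le_trans (card_le_card ?_) hbig
  intro l hl
  obtain ⟨hl1, hl2⟩ := mem_filter.1 hl
  refine mem_filter.2 ⟨hl1, ?_⟩
  have h1 : ((dilSum j l A₁ (B.image fun b => M * b)).card : ℝ) ≤ (dilSum j l A B).card := by
    have h2 := dilSum_smul j l M A' B
    have h3 := card_le_card (dilSum_mono j l hA' B)
    exact_mod_cast h2.trans h3
  refine h1.trans_lt (hl2.trans_le ?_)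
  rw [hB1c]
  have hbl : 0 ≤ Real.log B.card := Real.log_nonneg hBc
  have hfin : ((A.card : ℝ) ^ j * B.card) ^ (1 - ε) ≤
      ((A₁.card : ℝ) ^ j * B.card) ^ (1 - ε / 2) := by
    rw [← Real.log_le_log_iff (by positivity) (by positivity), Real.log_rpow (by positivity),
      Real.log_rpow (by positivity), Real.log_mul (by positivity) hB0.ne',
      Real.log_mul (by positivity) hB0.ne', Real.log_pow, Real.log_pow]
    change (1 - ε) * (j * a + Real.log B.card) ≤ (1 - ε / 2) * (j * a' + Real.log B.card)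
    have h2 : (1 - ε / 4) * a ≤ a' := by
      have h4 : 0 ≤ Real.log 24 := hl24.le
      linarith
    have h3 : (1 - ε / 2) * (j * ((1 - ε / 4) * a)) ≤ (1 - ε / 2) * (j * a') :=
      mul_le_mul_of_nonneg_left (mul_le_mul_of_nonneg_left h2 hj0) (by linarith)
    have h4 : 0 ≤ (j : ℝ) * a := by positivity
    have h5 : (1 - ε) * (j * a) ≤ (1 - ε / 2) * (j * ((1 - ε / 4) * a)) := by
      have h6 : (1 - ε / 2) * (j * ((1 - ε / 4) * a)) = (1 - ε / 2) * (1 - ε / 4) * (j * a) := by
        ring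
      rw [h6]
      have h8 := mul_nonneg hε.le hε.le
      have h9 : 1 - ε ≤ (1 - ε / 2) * (1 - ε / 4) := by
        have h10 : (1 - ε / 2) * (1 - ε / 4) = 1 - ε + (ε / 4 + ε * ε / 8) := by ring
        rw [h10]
        linarith
      exact mul_le_mul_of_nonneg_right h9 h4
    have h7 : (1 - ε) * Real.log B.card ≤ (1 - ε / 2) * Real.log B.card :=
      mul_le_mul_of_nonneg_right (by linarith) hbl
    linarith
  calc min c (Real.exp (-(j * a₀))) * ((A.card : ℝ) ^ j * B.card) ^ (1 - ε)
      ≤ c * ((A.card : ℝ) ^ j * B.card) ^ (1 - ε) :=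
        mul_le_mul_of_nonneg_right (min_le_left _ _) (by positivity)
    _ ≤ _ := mul_le_mul_of_nonneg_left hfin hc.le

end Pool.Agent.T2H12.KP
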