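import Mathlib
import Pool.Agent.T2H12.KP.Fin5
import Pool.Agent.T2H12.KI.Omega

/-!
# Arbitrary sets of multipliers of larger height
-/

set_option autoImplicit false

namespace Pool.Agent.T2H12.KP

open Finset
open scoped Classical
open Pool.Agent.Y359.PE Pool.Agent.T2H12.KF Pool.Agent.T2H12.KD Pool.Agent.T2H12.KG
open Pool.Agent.T2H12.KH Pool.Agent.T2H12.KM

/-- the quotient of the logarithms -/
lemma log_quot {δ a : ℝ} (hδ : 0 < δ) (ha2 : 2 ≤ a) (ha : 1 ≤ δ ^ 2 * a) (ha3 : 2 ≤ δ * a) {N : ℕ}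
    (hN : N = ⌈2 * Real.exp (a * (δ * Real.log (1 + a)))⌉₊ + 1) :
    3 ≤ N ∧ Real.log N / Real.log (Real.log N) ≤ 8 * δ * a := by
  obtain ⟨L, hL⟩ : ∃ L : ℝ, L = Real.log (1 + a) := ⟨_, rfl⟩
  obtain ⟨y, hy⟩ : ∃ y : ℝ, y = a * (δ * L) := ⟨_, rfl⟩
  have ha0 : 0 < a := by linarith
  have hL1 : 1 ≤ L := by
    rw [hL, Real.le_log_iff_exp_le (by linarith)]
    linarith [Real.exp_one_lt_d9]
  have hya : δ * a ≤ y := by
    rw [hy]
    nlinarith [mul_pos hδ ha0]
  have hy2 : 2 ≤ y := by linarith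
  rw [← hL, ← hy] at hN
  have he : 0 < Real.exp y := Real.exp_pos _
  have he1 : 1 ≤ Real.exp y := Real.one_le_exp (by linarith)
  have hN1 : (N : ℝ) ≤ 4 * Real.exp y := by
    have h1 := Nat.ceil_lt_add_one (show (0 : ℝ) ≤ 2 * Real.exp y by positivity)
    rw [hN]
    push_cast
    linarith
  have hN2 : Real.exp y ≤ N := by
    have h1 := Nat.le_ceil (2 * Real.exp y)
    rw [hN]
    push_cast
    linarith
  have hN0 : (0 : ℝ) < N := by linarith
  have hl4 : Real.log 4 ≤ 2 := by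
    rw [Real.log_le_iff_le_exp (by norm_num)]
    have e1 : Real.exp 2 = Real.exp 1 * Real.exp 1 := by
      rw [← Real.exp_add]
      norm_num
    rw [e1]
    nlinarith [Real.exp_one_gt_d9]
  have h1 : Real.log N ≤ 2 * y := by
    have h2 := Real.log_le_log hN0 hN1
    rw [Real.log_mul (by norm_num) he.ne', Real.log_exp] at h2
    linarith
  have h2 : y ≤ Real.log N := by
    have h3 := Real.log_le_log he hN2
    rwa [Real.log_exp] at h3
  have h3 : Real.log (δ * a) ≤ Real.log (Real.log N) :=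
    Real.log_le_log (by positivity) (by linarith)
  have h4 : Real.log a ≤ 2 * Real.log (δ * a) := by
    have h5 : a ≤ (δ * a) ^ 2 := by nlinarith
    have h6 := Real.log_le_log ha0 h5
    rw [Real.log_pow] at h6
    push_cast at h6
    exact h6
  have h5 : L ≤ 2 * Real.log a := by
    have h6 : 1 + a ≤ a ^ 2 := by nlinarith
    have h7 := Real.log_le_log (by linarith) h6
    rw [Real.log_pow] at h7
    push_cast at h7
    rw [hL]
    exact h7
  have h6 : L / 4 ≤ Real.log (Real.log N) := by linarith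
  constructor
  · have h7 : (3 : ℝ) ≤ N := by
      have h8 : (2 : ℝ) + 1 ≤ Real.exp 2 := Real.add_one_le_exp 2
      have h9 : Real.exp 2 ≤ Real.exp y := Real.exp_le_exp.2 hy2
      linarith
    exact_mod_cast h7
  · rw [div_le_iff₀ (by linarith)]
    have h7 : 8 * δ * a * (L / 4) ≤ 8 * δ * a * Real.log (Real.log N) :=
      mul_le_mul_of_nonneg_left h6 (by positivity)
    have h8 : 8 * δ * a * (L / 4) = 2 * y := by
      rw [hy]
      ring
    linarith

/-- the number of the bad primes -/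
lemma card_badL {C₁ : ℝ} (hω : ∀ (N : ℕ) (a : ℤ), 3 ≤ N → a ≠ 0 → a.natAbs ≤ N →
    (a.natAbs.primeFactors.card : ℝ) ≤ C₁ * (Real.log N / Real.log (Real.log N)))
    (D : Finset ℤ) (P : Finset ℕ) (hP : ∀ p ∈ P, p.Prime) {x X : ℝ} {N : ℕ} (hN : 3 ≤ N)
    (hx : 2 * x ≤ N) (hX : C₁ * (Real.log N / Real.log (Real.log N)) ≤ X) (hX0 : 0 ≤ X)
    (hD : ∀ m ∈ D, |(m : ℝ)| ≤ x) :
    ((P.filter fun p => ¬ InjP D p).card : ℝ) ≤ (D.card : ℝ) ^ 2 * X := by
  have h1 : P.filter (fun p => ¬ InjP D p) ⊆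
      (D ×ˢ D).biUnion fun s => (s.1 - s.2).natAbs.primeFactors := by
    intro p hp
    obtain ⟨hpP, hpi⟩ := mem_filter.1 hp
    unfold InjP at hpi
    push Not at hpi
    obtain ⟨m, hm, m', hm', hd, hne⟩ := hpi
    refine mem_biUnion.2 ⟨(m, m'), mem_product.2 ⟨hm, hm'⟩, ?_⟩
    rw [Nat.mem_primeFactors]
    refine ⟨hP p hpP, Int.natCast_dvd.1 hd, ?_⟩
    rw [Int.natAbs_ne_zero]
    exact sub_ne_zero.2 hne
  have h2 : ((P.filter fun p => ¬ InjP D p).card : ℝ) ≤
      ∑ s ∈ D ×ˢ D, ((s.1 - s.2).natAbs.primeFactors.card : ℝ) := by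
    exact_mod_cast (card_le_card h1).trans card_biUnion_le
  have h3 : ∀ s ∈ D ×ˢ D, ((s.1 - s.2).natAbs.primeFactors.card : ℝ) ≤ X := by
    intro s hs
    obtain ⟨hs1, hs2⟩ := mem_product.1 hs
    rcases eq_or_ne (s.1 - s.2) 0 with h | h
    · rw [h]
      simp only [Int.natAbs_zero, Nat.primeFactors_zero, card_empty, Nat.cast_zero]
      exact hX0
    · refine (hω N (s.1 - s.2) hN h ?_).trans hX
      have h5 : (((s.1 - s.2).natAbs : ℕ) : ℝ) = |(s.1 : ℝ) - s.2| := by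
        rw [Nat.cast_natAbs]
        push_cast
        rfl
      have h6 : (((s.1 - s.2).natAbs : ℕ) : ℝ) ≤ N := by
        rw [h5]
        refine (abs_sub _ _).trans ?_
        linarith [hD _ hs1, hD _ hs2]
      exact_mod_cast h6
  calc ((P.filter fun p => ¬ InjP D p).card : ℝ)
      ≤ ∑ s ∈ D ×ˢ D, ((s.1 - s.2).natAbs.primeFactors.card : ℝ) := h2
    _ ≤ ∑ s ∈ D ×ˢ D, X := sum_le_sum h3
    _ = (D.card : ℝ) ^ 2 * X := by
        rw [sum_const, card_product, nsmul_eq_mul]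
        push_cast
        ring

/-- **Boundedly many exceptional multipliers.** -/
theorem few_badL {κ δ₁ : ℝ} (hκ : 0 < κ) (hδ₁ : 0 < δ₁) (M C : ℝ) :
    ∃ (K : ℕ) (δ a₀ : ℝ), 0 < δ ∧ 0 < a₀ ∧
    ∀ (A : Finset ℤ) (P : Finset ℕ) (γ G : ℤ → ℤ), A.Nonempty → (0 : ℤ) ∉ A → Dec P γ G A →
      (∀ U ⊆ A, ce U (gp P) γ ≤ δ * Real.log A.card) →
      a₀ ≤ Real.log A.card → (P.card : ℝ) ≤ C * Real.log A.card →
      h A G ≤ (1 - κ) * Real.log A.card →
      ∀ H : Finset ℤ, (0 : ℤ) ∉ H →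
        (∀ m ∈ H, |(m : ℝ)| ≤ (A.card : ℝ) ^ (δ * Real.log (1 + Real.log A.card))) →
      ∀ V : Finset ℤ, V.Nonempty → Real.log V.card ≤ M * Real.log A.card →
        (H.filter fun m => Real.log (dil m A V).card <
          (1 - δ₁) * (Real.log A.card + Real.log V.card)).card ≤ K := by
  obtain ⟨K, δb, a1, hδb, ha1, H1⟩ := sumC5 hκ hδ₁ M C
  obtain ⟨C₁, hC₁, hω⟩ := Pool.Agent.T2H12.KI.omega_le
  obtain ⟨δ, hδd⟩ : ∃ δ : ℝ, δ = min δb (δb / (8 * C₁ * ((K : ℝ) ^ 2 + 1))) := ⟨_, rfl⟩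
  have hδ : 0 < δ := by
    rw [hδd]
    positivity
  have hδb' : δ ≤ δb := by
    rw [hδd]
    exact min_le_left _ _
  have hδc : δ * (8 * C₁ * ((K : ℝ) ^ 2 + 1)) ≤ δb := by
    have h6 : δ ≤ δb / (8 * C₁ * ((K : ℝ) ^ 2 + 1)) := by
      rw [hδd]
      exact min_le_right _ _
    rwa [le_div_iff₀ (by positivity)] at h6
  refine ⟨K, δ, max a1 (max 2 (max (1 / δ ^ 2) (2 / δ))), hδ, lt_max_of_lt_left ha1, ?_⟩
  intro A P γ G hA h0 hdec hdt ha hPc hent H hH0 hH V hV hVc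
  have hAc : (1 : ℝ) ≤ A.card := by exact_mod_cast card_pos.2 hA
  have hA0 : (0 : ℝ) < A.card := by linarith
  set a := Real.log A.card with had
  have ha0 : 0 ≤ a := Real.log_nonneg hAc
  have hb1 : a1 ≤ a := (le_max_left _ _).trans ha
  have hb2 : max 2 (max (1 / δ ^ 2) (2 / δ)) ≤ a := (le_max_right _ _).trans ha
  have hb3 : 2 ≤ a := (le_max_left _ _).trans hb2
  have hb4 : max (1 / δ ^ 2) (2 / δ) ≤ a := (le_max_right _ _).trans hb2
  have hb5 : 1 ≤ δ ^ 2 * a := by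
    have h1 : 1 / δ ^ 2 ≤ a := (le_max_left _ _).trans hb4
    rwa [div_le_iff₀ (by positivity), mul_comm] at h1
  have hb6 : 2 ≤ δ * a := by
    have h1 : 2 / δ ≤ a := (le_max_right _ _).trans hb4
    rwa [div_le_iff₀ (by positivity), mul_comm] at h1
  by_contra hcon
  rw [not_le] at hcon
  obtain ⟨D, hDH, hDc⟩ := exists_subset_card_eq hcon.le
  have hDH' : D ⊆ H := hDH.trans (filter_subset _ _)
  have hD0 : (0 : ℤ) ∉ D := fun h => hH0 (hDH' h)
  set Pb := P.filter fun p => ¬ InjP D p with hPb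
  obtain ⟨N, hN⟩ : ∃ N : ℕ, N = ⌈2 * Real.exp (a * (δ * Real.log (1 + a)))⌉₊ + 1 := ⟨_, rfl⟩
  obtain ⟨hN3, hNq⟩ := log_quot hδ hb3 hb5 hb6 hN
  have hx : (A.card : ℝ) ^ (δ * Real.log (1 + a)) = Real.exp (a * (δ * Real.log (1 + a))) := by
    rw [Real.rpow_def_of_pos hA0]
  have h1 := card_badL hω D P hdec.prime (x := (A.card : ℝ) ^ (δ * Real.log (1 + a)))
    (X := C₁ * (8 * δ * a)) hN3 (by
      rw [hx, hN]
      have h2 := Nat.le_ceil (2 * Real.exp (a * (δ * Real.log (1 + a))))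
      push_cast
      linarith) (mul_le_mul_of_nonneg_left hNq hC₁.le) (by positivity)
    fun m hm => hH m (hDH' hm)
  have h2 : (Pb.card : ℝ) ≤ δb * a := by
    refine h1.trans ?_
    rw [hDc]
    have h3 := mul_le_mul_of_nonneg_right hδc ha0
    have h4 : 0 ≤ δ * (8 * C₁) * a := by positivity
    nlinarith
  obtain ⟨m, hm, hle⟩ := H1 D hDc.ge hD0 A P Pb γ G hA h0 hdec (filter_subset _ _) (by
      intro p hp hpb
      by_contra hcon2
      exact hpb (mem_filter.2 ⟨hp, hcon2⟩)) h2 (fun U hU => (hdt U hU).trans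
      (mul_le_mul_of_nonneg_right hδb' ha0)) hb1 hPc hent V hV hVc
  have h3 := (mem_filter.1 (hDH hm)).2
  linarith

/-- **The sum side for arbitrary sets of multipliers.** -/
theorem sum_finL (k : ℕ) {κ ε : ℝ} (hκ : 0 < κ) (hε : 0 < ε) (hε1 : ε ≤ 1) (C : ℝ) :
    ∃ (K : ℕ) (δ c : ℝ), 0 < δ ∧ 0 < c ∧
    ∀ (A : Finset ℤ) (P : Finset ℕ) (γ G : ℤ → ℤ), A.Nonempty → (0 : ℤ) ∉ A → Dec P γ G A →
      (∀ U ⊆ A, ce U (gp P) γ ≤ δ * Real.log A.card) → (P.card : ℝ) ≤ C * Real.log A.card →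
      h A G ≤ (1 - κ) * Real.log A.card →
      ∀ H : Finset ℤ, (0 : ℤ) ∉ H →
        (∀ m ∈ H, |(m : ℝ)| ≤ (A.card : ℝ) ^ (δ * Real.log (1 + Real.log A.card))) →
      ∀ B : Finset ℤ, B.Nonempty →
        ((Fintype.piFinset fun _ : Fin k => H).filter fun l => ((dilSum k l A B).card : ℝ) <
          c * ((A.card : ℝ) ^ k * B.card) ^ (1 - ε)).card ≤ K * H.card ^ (k - 1) := by
  have hk0 : (0 : ℝ) ≤ k := Nat.cast_nonneg k
  set δ₁ : ℝ := ε / (4 * (k + 1)) with hδ₁d
  have hδ₁ : 0 < δ₁ := by positivity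
  have hδk : δ₁ * (k + 1) = ε / 4 := by
    rw [hδ₁d]
    field_simp
  have hδ₁1 : δ₁ ≤ 1 := by nlinarith
  set M : ℝ := k + k / ε + 1 with hM
  obtain ⟨K', δ, a₀, hδ, ha₀, hside⟩ := few_badL hκ hδ₁ M C
  refine ⟨k * K', δ, Real.exp (-(k * a₀)), hδ, Real.exp_pos _, ?_⟩
  intro A P γ G hA h0 hdec hdt hQc hent H hH0 hHs B hB
  have hAc : (1 : ℝ) ≤ A.card := by exact_mod_cast card_pos.2 hA
  have hA0 : (0 : ℝ) < A.card := by linarith
  set a := Real.log A.card with had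
  have ha : 0 ≤ a := Real.log_nonneg hAc
  have hBc : (1 : ℝ) ≤ B.card := by exact_mod_cast card_pos.2 hB
  have hB0 : (0 : ℝ) < B.card := by linarith
  set b := Real.log B.card with hbd
  have hb : 0 ≤ b := Real.log_nonneg hBc
  have hX : (0 : ℝ) < (A.card : ℝ) ^ k * B.card := by positivity
  have hlX : Real.log ((A.card : ℝ) ^ k * B.card) = k * a + b := by
    rw [Real.log_mul (by positivity) hB0.ne', Real.log_pow]
  have hXp : (0 : ℝ) < ((A.card : ℝ) ^ k * B.card) ^ (1 - ε) := Real.rpow_pos_of_pos hX _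
  have htB : ∀ l : Fin k → ℤ, (B.card : ℝ) ≤ (dilSum k l A B).card :=
    fun l => by exact_mod_cast dilSum_card_ge k l hA
  have htp : ∀ l : Fin k → ℤ, (0 : ℝ) < (dilSum k l A B).card := fun l => by
    linarith [htB l]
  have hb1 : ∀ l : Fin k → ℤ, b ≤ Real.log (dilSum k l A B).card :=
    fun l => Real.log_le_log hB0 (htB l)
  have hlog : ∀ l : Fin k → ℤ, -(k * a₀) + (1 - ε) * (k * a + b) ≤
      Real.log (dilSum k l A B).card →
      Real.exp (-(k * a₀)) * ((A.card : ℝ) ^ k * B.card) ^ (1 - ε) ≤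
        (dilSum k l A B).card := by
    intro l hl
    rw [← Real.log_le_log_iff (mul_pos (Real.exp_pos _) hXp) (htp l),
      Real.log_mul (Real.exp_pos _).ne' hXp.ne', Real.log_exp, Real.log_rpow hX, hlX]
    exact hl
  have hka0 : 0 ≤ k * a₀ := by positivity
  have hall : (∀ l : Fin k → ℤ, -(k * a₀) + (1 - ε) * (k * a + b) ≤
      Real.log (dilSum k l A B).card) →
      ((Fintype.piFinset fun _ : Fin k => H).filter fun l => ((dilSum k l A B).card : ℝ) <
          Real.exp (-(k * a₀)) * ((A.card : ℝ) ^ k * B.card) ^ (1 - ε)).card ≤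
        k * K' * H.card ^ (k - 1) := by
    intro hl
    rw [filter_false_of_mem, card_empty]
    · exact Nat.zero_le _
    · intro l _
      exact not_lt.2 (hlog l (hl l))
  rcases lt_or_ge a a₀ with haa | haa
  · -- small sets
    refine hall fun l => ?_
    have h1 : k * a ≤ k * a₀ := mul_le_mul_of_nonneg_left haa.le hk0
    have h2 : 0 ≤ ε * (k * a + b) := by positivity
    linarith [hb1 l]
  rcases lt_or_ge (k / ε * a) b with hbb | hbb
  · -- large `B`
    refine hall fun l => ?_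
    have h1 : k * a ≤ ε * b := by
      have h2 := mul_le_mul_of_nonneg_left hbb.le hε.le
      have h3 : ε * (k / ε * a) = k * a := by field_simp
      linarith
    have h2 : (1 - ε) * (k * a + b) ≤ (1 - ε) * (ε * b + b) :=
      mul_le_mul_of_nonneg_left (by linarith) (by linarith)
    have h3 : 0 ≤ ε ^ 2 * b := by positivity
    have h4 : (1 - ε) * (ε * b + b) = b - ε ^ 2 * b := by ring
    linarith [hb1 l]
  · -- the main case
    have h1 := count_tuples (A := A) (H := H) hA (M := M) hδ₁.le hδ₁1 (K := K')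
      (fun V hV hVc => hside A P γ G hA h0 hdec hdt haa hQc hent H hH0 hHs V hV hVc) k B hB (by
        change k * a + b ≤ M * a
        have h5 : M * a = k * a + k / ε * a + a := by
          rw [hM]
          ring
        rw [h5]
        linarith)
    refine le_trans (card_le_card ?_) h1
    intro l hl
    obtain ⟨hl1, hl2⟩ := mem_filter.1 hl
    refine mem_filter.2 ⟨hl1, ?_⟩
    by_contra hcon
    rw [not_lt] at hcon
    refine absurd (hlog l ?_) (not_le.2 hl2)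
    refine le_trans ?_ hcon
    have h3 := one_add_mul_le_pow (a := -δ₁) (by linarith) k
    have h4 : (1 : ℝ) + -δ₁ = 1 - δ₁ := by ring
    rw [h4] at h3
    have h5 : 1 - ε / 4 ≤ (1 - δ₁) ^ k := by nlinarith
    have h7 : (1 - ε / 4) * (k * a + b) ≤ (1 - δ₁) ^ k * (k * a + b) :=
      mul_le_mul_of_nonneg_right h5 (by positivity)
    have h8 : (1 - ε) * (k * a + b) ≤ (1 - ε / 4) * (k * a + b) :=
      mul_le_mul_of_nonneg_right (by linarith) (by positivity)
    linarith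

end Pool.Agent.T2H12.KP
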